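import Pool.Agent.HyE.Ded

/-!
# Counting on hyperelliptic curves: definitions

Project HYP (`MP_a56640_lc`).

* `an f n`: the number of the ideals of `k[x, y] / (y² - f)` with norm of degree `n`;
* `Rn f m`: the number of the reduced pairs `(u, v)` with `deg u = m`;
* `pn f d`: the number of the primes with norm of degree `d`, `Psi f j = ∑_{d ∣ j} d pn d`;
* `IsNw s c`: the power series `c` is `exp (∑ s_j T^j / j)`;
* `qc`: the quadratic character, `qs F`: the sum of the values `qc (F x)`;
* `sj p g F j`: the sum over the field with `p ^ j` elements, plus `qc` of the coefficient of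
  `X ^ (2 g + 2)`;
* `mb g F x₀ = X ^ (2 g + 2) F (x₀ + 1 / X)`.
-/

set_option autoImplicit false

noncomputable section

namespace Pool.Agent.HyZ

open Polynomial Pool.Agent.HyE
open scoped Classical

section

variable {k : Type} [Field k]

/-- the number of the ideals with norm of degree `n` -/
def an (f : k[X]) (n : ℕ) : ℕ := Nat.card {I : Ideal (Rg f) // I ≠ ⊥ ∧ (nrm I).natDegree = n}

/-- the number of the reduced pairs `(u, v)` with `deg u = m` -/
def Rn (f : k[X]) (m : ℕ) : ℕ :=
  Nat.card {w : k[X] × k[X] // SP f w.1 w.2 ∧ w.2.degree < w.1.degree ∧ w.1.natDegree = m}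

/-- the number of the primes with norm of degree `d` -/
def pn (f : k[X]) (d : ℕ) : ℕ :=
  Nat.card {I : Ideal (Rg f) // I.IsPrime ∧ I ≠ ⊥ ∧ (nrm I).natDegree = d}

/-- `∑_{d ∣ j} d pn d` -/
def Psi (f : k[X]) (j : ℕ) : ℕ := ∑ d ∈ j.divisors, d * pn f d

/-- the quadratic character -/
def qc {K : Type} [Field K] (a : K) : ℤ := if a = 0 then 0 else if IsSquare a then 1 else -1

/-- the character sum of a polynomial -/
def qs {K : Type} [Field K] (F : K[X]) : ℤ := ∑ᶠ x : K, qc (F.eval x)

/-- the model with the point `x₀` moved to infinity -/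
def mb (g : ℕ) (F : k[X]) (x₀ : k) : k[X] := (taylor x₀ F).reflect (2 * g + 2)

end

/-- the power series `c` is `exp (∑ s_j T^j / j)` -/
structure IsNw (s c : ℕ → ℚ) : Prop where
  zero : c 0 = 1
  step : ∀ n : ℕ, 0 < n → (n : ℚ) * c n = ∑ j ∈ Finset.Icc 1 n, s j * c (n - j)

/-- the numbers `C_0 = 1`, `C_k = 1 + q ^ k` -/
def Cc (q : ℚ) (k : ℕ) : ℚ := if k = 0 then 1 else 1 + q ^ k

/-- the number `s_j` -/
def sj (p : ℕ) [Fact p.Prime] (g : ℕ) (F : (ZMod p)[X]) (j : ℕ) : ℤ :=
  qs (F.map (algebraMap (ZMod p) (GaloisField p j))) +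
    qc (algebraMap (ZMod p) (GaloisField p j) (F.coeff (2 * g + 2)))

end Pool.Agent.HyZ
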