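import Pool.Agent.HyZ.Defs

/-!
# Package HyZ-Mb: moving a point to infinity

Complete proofs. `taylor x₀ F` is `F(X + x₀)`, its coefficient `0` is `F(x₀)`, its degree is that of
`F`; `reflect N` exchanges the coefficients `i` and `N - i` (`i ≤ N`); `eval₂_reflect`-like lemmas, or
directly: with `F(X + x₀) = ∑ t_i X^i`, `i ≤ 2 g + 2`, `mb = ∑ t_i X^(2g+2-i)` (`reflect` of sums, or
`coeff_reflect`, `revAt`).

* `mb_sqf`: `mb = X^e * reverse (taylor x₀ F)` with `e = 2 g + 2 - deg F ∈ {0, 1}` (`t_0 ≠ 0`, so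
  `natDegree (reverse ..) = natDegree F`). If `s²` divides `mb` then its reverse divides
  `taylor x₀ F` (`reverse_mul_of_domain`, `reverse` of `X^e G` is the reverse of `G`), which is
  squarefree, so the reverse of `s` is a constant, so `s = c X^a`, and `X²` does not divide `mb` since
  the coefficients `0`, `1` of `mb` are `t_(2g+2)`, `t_(2g+1)`, not both `0`.
* `inert_mb`, `inert_tw`: `Inert` from the degree, the leading coefficient and `mb_sqf`; for the twist
  the leading coefficient is `F(x₀) F(x₁)`, a nonsquare times a nonzero square.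
* `pt_mb`: `X = 1/(x₁ - x₀)`: `mb(X) = X^(2g+2) F(x₁)`.
-/

set_option autoImplicit false

noncomputable section

namespace Pool.Agent.HyZ

open Polynomial Pool.Agent.HyE
open scoped Classical

variable {k : Type} [Field k] {g : ℕ} {F : k[X]} {x₀ x₁ : k}

theorem mb_top : (mb g F x₀).coeff (2 * g + 2) = F.eval x₀ := by
  unfold mb
  rw [coeff_reflect, revAt_le le_rfl, Nat.sub_self, taylor_coeff_zero]

private theorem coeff_ty {N : ℕ} (hF : F.natDegree ≤ N) : (taylor x₀ F).coeff N = F.coeff N := by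
  rcases hF.lt_or_eq with h | h
  · rw [coeff_eq_zero_of_natDegree_lt (by rwa [natDegree_taylor]),
      coeff_eq_zero_of_natDegree_lt h]
  · rw [← h, coeff_taylor_natDegree]
    rfl

theorem mb_bot (hF : F.natDegree ≤ 2 * g + 2) : (mb g F x₀).coeff 0 = F.coeff (2 * g + 2) := by
  unfold mb
  rw [coeff_reflect, revAt_le (Nat.zero_le _), Nat.sub_zero, coeff_ty hF]

private theorem deg_le (hF : F.natDegree ≤ 2 * g + 2) : (mb g F x₀).natDegree ≤ 2 * g + 2 := by
  refine natDegree_reflect_le.trans ?_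
  rw [natDegree_taylor]
  exact max_le le_rfl hF

theorem mb_natDegree (hF : F.natDegree ≤ 2 * g + 2) (h₀ : F.eval x₀ ≠ 0) :
    (mb g F x₀).natDegree = 2 * g + 2 := by
  refine le_antisymm (deg_le hF) (le_natDegree_of_ne_zero ?_)
  rw [mb_top]
  exact h₀

theorem mb_eval (hF : F.natDegree ≤ 2 * g + 2) {x : k} (hx : x ≠ 0) :
    (mb g F x₀).eval x = x ^ (2 * g + 2) * F.eval (x₀ + x⁻¹) := by
  have hx' : x⁻¹ ≠ 0 := inv_ne_zero hx
  let _ : Invertible x⁻¹ := invertibleOfNonzero hx'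
  have h1 := eval₂_reflect_mul_pow (RingHom.id k) x⁻¹ (2 * g + 2) (taylor x₀ F)
    (by rwa [natDegree_taylor])
  have h2 : ⅟(x⁻¹) = x := by
    rw [invOf_eq_inv, inv_inv]
  rw [h2, eval₂_id, eval₂_id, taylor_eval] at h1
  unfold mb
  rw [add_comm x₀, ← h1, inv_pow]
  exact (mul_inv_cancel_left₀ (pow_ne_zero (2 * g + 2) hx) _).symm.trans (by ring)

theorem mb_map {K : Type} [Field K] (φ : k →+* K) :
    (mb g F x₀).map φ = mb g (F.map φ) (φ x₀) := by
  unfold mb
  rw [← reflect_map, map_taylor]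

private theorem sqf_taylor (hs : Squarefree F) : Squarefree (taylor x₀ F) := by
  intro s hs'
  obtain ⟨q, hq⟩ := hs'
  have h1 : F = taylor (-x₀) s * taylor (-x₀) s * taylor (-x₀) q := by
    have h := congrArg (taylor (-x₀)) hq
    rwa [taylor_taylor, taylor_mul, taylor_mul, neg_add_cancel, taylor_zero] at h
  have h2 := hs _ ⟨_, h1⟩
  rw [isUnit_iff_degree_eq_zero, degree_taylor] at h2
  exact isUnit_iff_degree_eq_zero.2 h2

theorem mb_sqf (hF : F.natDegree ≤ 2 * g + 2) (hF' : 2 * g + 1 ≤ F.natDegree)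
    (hs : Squarefree F) (h₀ : F.eval x₀ ≠ 0) : Squarefree (mb g F x₀) := by
  have hT := sqf_taylor (x₀ := x₀) hs
  have hN := mb_natDegree hF h₀
  have hm : mb g F x₀ ≠ 0 := by
    intro h
    rw [h, natDegree_zero] at hN
    omega
  rintro s ⟨q, hq⟩
  have hs0 : s ≠ 0 := by
    rintro rfl
    rw [zero_mul, zero_mul] at hq
    exact hm hq
  have hq0 : q ≠ 0 := by
    rintro rfl
    rw [mul_zero] at hq
    exact hm hq
  have hdeg : s.natDegree + s.natDegree + q.natDegree = 2 * g + 2 := by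
    rw [← hN, hq, natDegree_mul (mul_ne_zero hs0 hs0) hq0, natDegree_mul hs0 hs0]
  have h1 : taylor x₀ F = reflect s.natDegree s * reflect s.natDegree s *
      reflect q.natDegree q := by
    rw [← reflect_mul s s le_rfl le_rfl, ← reflect_mul (s * s) q
      (by rw [natDegree_mul hs0 hs0]) le_rfl, ← hq, hdeg]
    unfold mb
    rw [reflect_reflect]
  have h2 := hT _ ⟨_, h1⟩
  obtain ⟨c, hc, hcs⟩ := Polynomial.isUnit_iff.1 h2
  have h3 : s = C c * X ^ s.natDegree := by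
    rw [← reflect_C, hcs, reflect_reflect]
  by_cases h4 : s.natDegree = 0
  · rw [h3, h4, pow_zero, mul_one]
    exact isUnit_C.2 hc
  · exfalso
    have h5 : X ^ 2 ∣ mb g F x₀ := by
      have h6 : X ∣ s := by
        rw [h3]
        exact Dvd.dvd.mul_left (dvd_pow_self X h4) _
      rw [hq, pow_two]
      exact Dvd.dvd.mul_right (mul_dvd_mul h6 h6) q
    rw [X_pow_dvd_iff] at h5
    have h7 := h5 0 (by omega)
    have h8 := h5 1 (by omega)
    unfold mb at h7 h8
    rw [coeff_reflect, revAt_le (by omega), Nat.sub_zero] at h7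
    rw [coeff_reflect, revAt_le (by omega)] at h8
    have h9 : 2 * g + 2 - 1 = 2 * g + 1 := by omega
    rw [h9] at h8
    have hne : taylor x₀ F ≠ 0 := by
      rw [Ne, taylor_eq_zero]
      rintro rfl
      rw [eval_zero] at h₀
      exact h₀ rfl
    have h10 : (taylor x₀ F).leadingCoeff = 0 := by
      unfold leadingCoeff
      rw [natDegree_taylor]
      rcases Nat.lt_or_ge F.natDegree (2 * g + 2) with h | h
      · rw [show F.natDegree = 2 * g + 1 by omega]
        exact h8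
      · rw [show F.natDegree = 2 * g + 2 by omega]
        exact h7
    exact hne (leadingCoeff_eq_zero.1 h10)

private theorem ne_of_nsq {a : k} (h : ¬ IsSquare a) : a ≠ 0 := by
  rintro rfl
  exact h ⟨0, by simp⟩

theorem inert_mb (h2 : (2 : k) ≠ 0) (hF : F.natDegree ≤ 2 * g + 2)
    (hF' : 2 * g + 1 ≤ F.natDegree) (hs : Squarefree F) (h₀ : ¬ IsSquare (F.eval x₀)) :
    Inert (mb g F x₀) ∧ (mb g F x₀).natDegree = 2 * g + 2 := by
  have h := mb_natDegree hF (ne_of_nsq h₀)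
  refine ⟨⟨?_, ?_, ?_, mb_sqf hF hF' hs (ne_of_nsq h₀), h2⟩, h⟩
  · rw [h]
    exact ⟨g + 1, by ring⟩
  · omega
  · unfold leadingCoeff
    rw [h, mb_top]
    exact h₀

theorem inert_tw (h2 : (2 : k) ≠ 0) (hF : F.natDegree ≤ 2 * g + 2)
    (hF' : 2 * g + 1 ≤ F.natDegree) (hs : Squarefree F) (h₀ : ¬ IsSquare (F.eval x₀))
    (h₁ : IsSquare (F.eval x₁)) (h₁' : F.eval x₁ ≠ 0) :
    Inert (C (F.eval x₀) * mb g F x₁) ∧
      (C (F.eval x₀) * mb g F x₁).natDegree = 2 * g + 2 := by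
  have h0 := ne_of_nsq h₀
  have h : (C (F.eval x₀) * mb g F x₁).natDegree = 2 * g + 2 := by
    rw [natDegree_C_mul h0, mb_natDegree hF h₁']
  have hu : IsUnit (C (F.eval x₀)) := isUnit_C.2 (isUnit_iff_ne_zero.2 h0)
  refine ⟨⟨?_, ?_, ?_, ?_, h2⟩, h⟩
  · rw [h]
    exact ⟨g + 1, by ring⟩
  · omega
  · unfold leadingCoeff
    rw [h, coeff_C_mul, mb_top]
    rintro ⟨r, hr⟩
    obtain ⟨c, hc⟩ := h₁
    have hc0 : c ≠ 0 := by
      rintro rfl
      rw [zero_mul] at hc
      exact h₁' hc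
    apply h₀
    refine ⟨r / c, ?_⟩
    rw [div_mul_div_comm, ← hr, hc, mul_div_cancel_right₀ _ (mul_ne_zero hc0 hc0)]
  · intro s hs'
    exact mb_sqf hF hF' hs h₁' s ((hu.dvd_mul_left).1 hs')

theorem pt_mb (hF : F.natDegree ≤ 2 * g + 2) (h₀ : ¬ IsSquare (F.eval x₀))
    (h₁ : IsSquare (F.eval x₁)) :
    (∃ a b : k, b ^ 2 = (mb g F x₀).eval a) ∧
      ∃ a b : k, b ^ 2 = (C (F.eval x₀) * mb g F x₁).eval a := by
  have hne : x₁ - x₀ ≠ 0 := by
    rw [sub_ne_zero]
    rintro rfl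
    exact h₀ h₁
  have hne' : x₀ - x₁ ≠ 0 := by
    rw [← neg_sub]
    exact neg_ne_zero.2 hne
  constructor
  · obtain ⟨c, hc⟩ := h₁
    refine ⟨(x₁ - x₀)⁻¹, (x₁ - x₀)⁻¹ ^ (g + 1) * c, ?_⟩
    rw [mb_eval hF (inv_ne_zero hne), inv_inv, add_sub_cancel, hc]
    ring
  · refine ⟨(x₀ - x₁)⁻¹, (x₀ - x₁)⁻¹ ^ (g + 1) * F.eval x₀, ?_⟩
    rw [eval_mul, eval_C, mb_eval hF (inv_ne_zero hne'), inv_inv, add_sub_cancel]
    ring

end Pool.Agent.HyZ
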