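import Pool.Agent.HyZ.Mb

/-!
# Package HyZ-Sj: the numbers `s_j` do not depend on the model

* `qc_mul`: over a finite field (`quadraticChar`).
* `qs_mb`: `∑_{x ≠ 0} qc (mb(x)) = ∑_{x ≠ 0} qc (x^(2g+2) F(x₀ + 1/x)) = ∑_{y ≠ x₀} qc (F y)`
  (bijection `y = x₀ + 1/x`), and `mb(0) = F.coeff (2g+2)`.
* `qc_ext`: `K = GaloisField p j` has `q = p ^ j` elements; a nonsquare `a` of `ZMod p`
  has `a^((p-1)/2) = -1`; `(q-1)/2 = (p-1)/2 (1 + p + ... + p^(j-1))`, and
  the sum of `j` odd numbers has the parity of `j`; so `a^((q-1)/2) = (-1)^j`.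
* `sj_mb`, `sj_tw`: the above for `GaloisField p j`.
-/

set_option autoImplicit false

noncomputable section

namespace Pool.Agent.HyZ

open Polynomial Pool.Agent.HyE
open scoped Classical

private theorem qc_eq {K : Type} [Field K] [Fintype K] (a : K) : qc a = quadraticChar K a := by
  rw [quadraticChar_apply, quadraticCharFun, qc]
  split_ifs <;> rfl

theorem qc_mul {K : Type} [Field K] [Finite K] (a b : K) : qc (a * b) = qc a * qc b := by
  have := Fintype.ofFinite K
  rw [qc_eq, qc_eq, qc_eq, map_mul]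

theorem qc_sq_mul {K : Type} [Field K] {a : K} (ha : a ≠ 0) (b : K) : qc (a ^ 2 * b) = qc b := by
  have ha2 : a ^ 2 ≠ 0 := pow_ne_zero 2 ha
  have h1 : a ^ 2 * b = 0 ↔ b = 0 := by simp [ha]
  have h2 : IsSquare (a ^ 2 * b) ↔ IsSquare b := by
    constructor
    · rintro ⟨r, hr⟩
      refine ⟨r * a⁻¹, ?_⟩
      field_simp
      rw [← sq] at hr
      linear_combination hr
    · rintro ⟨r, rfl⟩
      exact ⟨a * r, by ring⟩
  unfold qc
  simp only [h1, h2]

theorem qs_mb {K : Type} [Field K] [Finite K] {g : ℕ} {F : K[X]} (x₀ : K)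
    (hF : F.natDegree ≤ 2 * g + 2) :
    qs (mb g F x₀) + qc (F.eval x₀) = qs F + qc (F.coeff (2 * g + 2)) := by
  have := Fintype.ofFinite K
  unfold qs
  rw [finsum_eq_sum_of_fintype, finsum_eq_sum_of_fintype,
    ← Finset.add_sum_erase _ _ (Finset.mem_univ (0 : K)),
    ← Finset.add_sum_erase _ (fun x => qc (F.eval x)) (Finset.mem_univ x₀)]
  have h0 : (mb g F x₀).eval 0 = F.coeff (2 * g + 2) := by
    rw [← coeff_zero_eq_eval_zero, mb_bot hF]
  have h1 : ∑ x ∈ Finset.univ.erase (0 : K), qc ((mb g F x₀).eval x) =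
      ∑ x ∈ Finset.univ.erase x₀, qc (F.eval x) := by
    refine Finset.sum_bij' (fun x _ => x₀ + x⁻¹) (fun y _ => (y - x₀)⁻¹) ?_ ?_ ?_ ?_ ?_
    · intro x hx
      have hx0 := (Finset.mem_erase.1 hx).1
      refine Finset.mem_erase.2 ⟨fun h => ?_, Finset.mem_univ _⟩
      have h2 : x⁻¹ = 0 := by linear_combination h
      exact hx0 (inv_eq_zero.1 h2)
    · intro y hy
      have hy0 := (Finset.mem_erase.1 hy).1
      exact Finset.mem_erase.2 ⟨inv_ne_zero (sub_ne_zero.2 hy0), Finset.mem_univ _⟩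
    · intro x hx
      simp
    · intro y hy
      simp
    · intro x hx
      have hx0 := (Finset.mem_erase.1 hx).1
      rw [mb_eval hF hx0, show 2 * g + 2 = (g + 1) * 2 by ring, pow_mul,
        qc_sq_mul (pow_ne_zero _ hx0)]
  rw [h0, h1]
  ring

theorem qs_C {K : Type} [Field K] [Finite K] (a : K) (F : K[X]) :
    qs (C a * F) = qc a * qs F := by
  have := Fintype.ofFinite K
  unfold qs
  rw [finsum_eq_sum_of_fintype, finsum_eq_sum_of_fintype, Finset.mul_sum]
  refine Finset.sum_congr rfl fun x _ => ?_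
  rw [eval_mul, eval_C, qc_mul]

private theorem pow_half {p : ℕ} (hp : p % 2 = 1) (j : ℕ) :
    ∃ t : ℕ, p ^ j = 2 * (p / 2 * t) + 1 ∧ (Even t ↔ Even j) := by
  induction j with
  | zero => exact ⟨0, by simp, by simp⟩
  | succ j ih =>
    obtain ⟨t, h1, h2⟩ := ih
    refine ⟨t + p ^ j, ?_, ?_⟩
    · obtain ⟨m, hm⟩ : ∃ m, p = 2 * m + 1 := ⟨p / 2, by omega⟩
      have hm2 : p / 2 = m := by omega
      rw [hm2] at h1 ⊢
      calc p ^ (j + 1) = p ^ j * p := pow_succ _ _
        _ = p ^ j * (2 * m) + p ^ j := by rw [hm]; ring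
        _ = p ^ j * (2 * m) + (2 * (m * t) + 1) := by rw [← h1]
        _ = 2 * (m * (t + p ^ j)) + 1 := by ring
    · have h3 : Odd (p ^ j) := (Nat.odd_iff.2 hp).pow
      rw [Nat.even_add_one, ← h2, Nat.even_add]
      constructor
      · intro h h4
        exact Nat.not_even_iff_odd.2 h3 (h.1 h4)
      · intro h
        exact ⟨fun h4 => absurd h4 h, fun h4 => absurd h4 (Nat.not_even_iff_odd.2 h3)⟩

theorem qc_ext {p : ℕ} [Fact p.Prime] (hp : p ≠ 2) {a : ZMod p} (ha : ¬ IsSquare a) {j : ℕ}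
    (hj : 0 < j) : qc (algebraMap (ZMod p) (GaloisField p j) a) = (-1) ^ j := by
  have hpp : p.Prime := Fact.out
  have := Fintype.ofFinite (GaloisField p j)
  have ha0 : a ≠ 0 := by
    rintro rfl
    exact ha ⟨0, by simp⟩
  have h1 : a ^ (p / 2) = -1 := by
    rcases ZMod.pow_div_two_eq_neg_one_or_one p ha0 with h | h
    · exact absurd ((ZMod.euler_criterion p ha0).2 h) ha
    · exact h
  have hodd : p % 2 = 1 := hpp.eq_two_or_odd.resolve_left hp
  obtain ⟨t, h2, h3⟩ := pow_half hodd j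
  have hcard : Fintype.card (GaloisField p j) = p ^ j := by
    rw [← Nat.card_eq_fintype_card, GaloisField.card p j hj.ne']
  have h4 : Fintype.card (GaloisField p j) / 2 = p / 2 * t := by
    rw [hcard, h2]
    omega
  have hb0 : algebraMap (ZMod p) (GaloisField p j) a ≠ 0 := by
    rw [Ne, FaithfulSMul.algebraMap_eq_zero_iff]
    exact ha0
  have hchar : ringChar (GaloisField p j) ≠ 2 := by
    rw [ringChar.eq (GaloisField p j) p]
    exact hp
  have h5 : (algebraMap (ZMod p) (GaloisField p j) a) ^ (Fintype.card (GaloisField p j) / 2) =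
      (-1) ^ t := by
    rw [h4, pow_mul, ← map_pow, h1, map_neg, map_one]
  have h6 : (-1 : GaloisField p j) ^ t = (-1) ^ j := by
    by_cases h : Even j
    · rw [h.neg_one_pow, (h3.2 h).neg_one_pow]
    · have h7 : ¬ Even t := fun h8 => h (h3.1 h8)
      rw [(Nat.not_even_iff_odd.1 h).neg_one_pow, (Nat.not_even_iff_odd.1 h7).neg_one_pow]
  rw [h6] at h5
  have h8 := FiniteField.isSquare_iff hchar hb0
  rw [h5] at h8
  unfold qc
  rw [if_neg hb0]
  by_cases h : Even j
  · rw [h.neg_one_pow] at h8 ⊢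
    rw [if_pos (h8.2 rfl)]
  · rw [(Nat.not_even_iff_odd.1 h).neg_one_pow] at h8 ⊢
    rw [if_neg]
    intro h9
    exact Ring.neg_one_ne_one_of_char_ne_two hchar (h8.1 h9)

theorem sj_mb {p : ℕ} [Fact p.Prime] {g : ℕ} {F : (ZMod p)[X]}
    (hF : F.natDegree ≤ 2 * g + 2) (x₀ : ZMod p) {j : ℕ} (hj : 0 < j) :
    sj p g (mb g F x₀) j = sj p g F j := by
  have h1 := qs_mb (F := F.map (algebraMap (ZMod p) (GaloisField p j)))
    (algebraMap (ZMod p) (GaloisField p j) x₀) (natDegree_map_le.trans hF)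
  rw [← mb_map, coeff_map, eval_map_algebraMap, aeval_algebraMap_apply_eq_algebraMap_eval] at h1
  unfold sj
  rw [mb_top]
  exact h1

theorem sj_tw {p : ℕ} [Fact p.Prime] (hp : p ≠ 2) {g : ℕ} {F : (ZMod p)[X]}
    (hF : F.natDegree ≤ 2 * g + 2) {a : ZMod p} (ha : ¬ IsSquare a) (x₁ : ZMod p) {j : ℕ}
    (hj : 0 < j) : sj p g (C a * mb g F x₁) j = (-1) ^ j * sj p g F j := by
  rw [← sj_mb hF x₁ hj, ← qc_ext hp ha hj]
  unfold sj
  rw [Polynomial.map_mul, map_C, qs_C, coeff_C_mul, map_mul, qc_mul]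
  ring

end Pool.Agent.HyZ
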