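import Pool.Agent.HyZ.Main
import Pool.Agent.Stv.Final

/-!
# Package HyZ-Near: `s_1` is the nearest integer

Complete proofs.

* `sj_bound`: `F.map` over `K = GaloisField p j` is squarefree (`ZMod p` is perfect: separable,
  `PerfectField.separable_iff_squarefree`, `Separable.map`) of the same degree, so by `stepanov`
  `(qs ..)² ≤ B p^j`, and `|qc| ≤ 1`: `|s_j| ≤ (√B + 1) (√p)^j`.
* `P_bound`: with `y = √p`, `β ≥ b`, `β ≥ 1`: strong induction,
  `i |P_i| ≤ ∑_j b y^j β^(i-j) y^(i-j) ≤ i β^i y^i`.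
* `near`: `P 1 = s_1` (`IsNw.step` for `n = 1`), so by `diff_eq` `|h - h' - 2 C_(g-1) s_1| ≤ 2 ∑_{3
  ≤ i ≤ g} |P_i| C_(g-i) ≤ 4 g β^g y^(2g-3)` (`C_k ≤ 2 y^(2k)`) and this is less than `y^(2g-2) ≤
  C_(g-1)` if `y > 4 g β^g`. (For `g ≤ 2` the sum is empty.) -/

set_option autoImplicit false

noncomputable section

namespace Pool.Agent.HyZ

open Polynomial Pool.Agent.HyE
open scoped Classical

private theorem two_ne_Near {p : ℕ} [Fact p.Prime] (hp : p ≠ 2) (j : ℕ) :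
    (2 : GaloisField p j) ≠ 0 := by
  intro h
  have h0 : (2 : ZMod p) = 0 := by
    apply (algebraMap (ZMod p) (GaloisField p j)).injective
    rw [map_ofNat, map_zero, h]
  have h1 : ((2 : ℕ) : ZMod p) = 0 := by exact_mod_cast h0
  rw [ZMod.natCast_eq_zero_iff] at h1
  exact hp ((Nat.prime_dvd_prime_iff_eq Fact.out Nat.prime_two).1 h1)

private theorem qc_abs_Near {K : Type} [Field K] (a : K) : |(qc a : ℝ)| ≤ 1 := by
  unfold qc
  split_ifs <;> simp

private theorem cc_le_Near {q y : ℝ} {p : ℕ} (hq : q = p) (hy : y ^ 2 = q) (h1 : 1 ≤ q) (k : ℕ) :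
    ((Cc p k : ℚ) : ℝ) ≤ 2 * y ^ (2 * k) := by
  unfold Cc
  split_ifs with h
  · rw [h, mul_zero, pow_zero]
    norm_num
  · push_cast
    rw [pow_mul, hy, ← hq]
    have := one_le_pow₀ h1 (n := k)
    linarith

private theorem cc_ge_Near {q y : ℝ} {p : ℕ} (hq : q = p) (hy : y ^ 2 = q) (k : ℕ) :
    y ^ (2 * k) ≤ ((Cc p k : ℚ) : ℝ) := by
  unfold Cc
  split_ifs with h
  · rw [h, mul_zero, pow_zero]
    norm_num
  · push_cast
    rw [pow_mul, hy, ← hq]
    linarith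

private theorem cc_nonneg_Near (p k : ℕ) : (0 : ℝ) ≤ ((Cc p k : ℚ) : ℝ) := by
  unfold Cc
  split_ifs with h
  · norm_num
  · push_cast
    positivity

theorem sj_bound (g : ℕ) : ∃ b : ℝ, 0 ≤ b ∧ ∀ (p : ℕ) [Fact p.Prime], p ≠ 2 →
    ∀ F : (ZMod p)[X], F.natDegree ≤ 2 * g + 2 → 1 ≤ F.natDegree → Squarefree F →
      ∀ j, 0 < j → |(sj p g F j : ℝ)| ≤ b * Real.sqrt p ^ j := by
  obtain ⟨B, hB⟩ := Stv.stepanov (2 * g + 2)
  refine ⟨Real.sqrt B + 1, by positivity, ?_⟩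
  intro p _ hp F hF hF1 hs j hj
  have hsep : F.Separable := PerfectField.separable_iff_squarefree.2 hs
  have hsq : Squarefree (F.map (algebraMap (ZMod p) (GaloisField p j))) :=
    (hsep.map (f := algebraMap (ZMod p) (GaloisField p j))).squarefree
  have h1 := hB (GaloisField p j) (two_ne_Near hp j) _ hsq (by rwa [natDegree_map])
    (by rwa [natDegree_map])
  rw [GaloisField.card p j hj.ne'] at h1
  have h2 : ((qs (F.map (algebraMap (ZMod p) (GaloisField p j))) : ℤ) : ℝ) ^ 2 ≤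
      B * (p : ℝ) ^ j := by exact_mod_cast h1
  have h3 : |((qs (F.map (algebraMap (ZMod p) (GaloisField p j))) : ℤ) : ℝ)| ≤
      Real.sqrt B * Real.sqrt p ^ j := by
    apply abs_le_of_sq_le_sq
    · rw [mul_pow, Real.sq_sqrt (Nat.cast_nonneg B), ← pow_mul, mul_comm j 2, pow_mul,
        Real.sq_sqrt (Nat.cast_nonneg p)]
      exact h2
    · positivity
  have hp1 : (1 : ℝ) ≤ p := by exact_mod_cast (Fact.out : p.Prime).one_le
  have h4 : (1 : ℝ) ≤ Real.sqrt p ^ j := one_le_pow₀ (Real.one_le_sqrt.2 hp1)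
  unfold sj
  push_cast
  calc |((qs (F.map (algebraMap (ZMod p) (GaloisField p j))) : ℤ) : ℝ) +
        ((qc (algebraMap (ZMod p) (GaloisField p j) (F.coeff (2 * g + 2))) : ℤ) : ℝ)| ≤
      |((qs (F.map (algebraMap (ZMod p) (GaloisField p j))) : ℤ) : ℝ)| +
        |((qc (algebraMap (ZMod p) (GaloisField p j) (F.coeff (2 * g + 2))) : ℤ) : ℝ)| :=
        abs_add_le _ _
    _ ≤ Real.sqrt B * Real.sqrt p ^ j + Real.sqrt p ^ j :=
        add_le_add h3 ((qc_abs_Near _).trans h4)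
    _ = (Real.sqrt B + 1) * Real.sqrt p ^ j := by ring

theorem P_bound {b y : ℝ} (hb : 1 ≤ b) (hy : 0 ≤ y) {s P : ℕ → ℚ} (hP : IsNw s P)
    (hs : ∀ j, 0 < j → |(s j : ℝ)| ≤ b * y ^ j) (i : ℕ) : |(P i : ℝ)| ≤ b ^ i * y ^ i := by
  induction i using Nat.strong_induction_on with
  | _ i ih =>
    rcases Nat.eq_zero_or_pos i with h0 | h0
    · rw [h0, hP.zero]
      simp
    · have h1 := hP.step i h0
      have h2 : (i : ℝ) * (P i : ℝ) = ∑ j ∈ Finset.Icc 1 i, (s j : ℝ) * (P (i - j) : ℝ) := by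
        exact_mod_cast congrArg (fun q : ℚ => (q : ℝ)) h1
      have hi : (0 : ℝ) < i := by exact_mod_cast h0
      have h3 : (i : ℝ) * |(P i : ℝ)| ≤ (i : ℝ) * (b ^ i * y ^ i) := by
        calc (i : ℝ) * |(P i : ℝ)| = |(i : ℝ) * (P i : ℝ)| := by
              rw [abs_mul, abs_of_pos hi]
          _ = |∑ j ∈ Finset.Icc 1 i, (s j : ℝ) * (P (i - j) : ℝ)| := by rw [h2]
          _ ≤ ∑ j ∈ Finset.Icc 1 i, |(s j : ℝ) * (P (i - j) : ℝ)| :=
              Finset.abs_sum_le_sum_abs _ _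
          _ ≤ ∑ j ∈ Finset.Icc 1 i, b ^ i * y ^ i := by
              refine Finset.sum_le_sum fun j hj => ?_
              obtain ⟨hj1, hj2⟩ := Finset.mem_Icc.1 hj
              have h4 := ih (i - j) (by omega)
              have h5 := hs j hj1
              rw [abs_mul]
              calc |(s j : ℝ)| * |(P (i - j) : ℝ)| ≤
                    (b * y ^ j) * (b ^ (i - j) * y ^ (i - j)) :=
                    mul_le_mul h5 h4 (abs_nonneg _) (by positivity)
                _ = b ^ (i - j + 1) * (y ^ j * y ^ (i - j)) := by ring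
                _ = b ^ (i - j + 1) * y ^ i := by
                    rw [← pow_add, Nat.add_sub_cancel' hj2]
                _ ≤ b ^ i * y ^ i :=
                    mul_le_mul_of_nonneg_right (pow_le_pow_right₀ hb (by omega)) (by positivity)
          _ = (i : ℝ) * (b ^ i * y ^ i) := by
              rw [Finset.sum_const, Nat.card_Icc, nsmul_eq_mul, Nat.add_sub_cancel]
      exact le_of_mul_le_mul_left h3 hi

theorem near (g : ℕ) (hg : 1 ≤ g) : ∃ p₀ : ℕ, ∀ (p : ℕ) [Fact p.Prime], p₀ < p →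
    ∀ (F : (ZMod p)[X]), F.natDegree ≤ 2 * g + 2 → 2 * g + 1 ≤ F.natDegree → Squarefree F →
    ∀ x₀ x₁ : ZMod p, ¬ IsSquare (F.eval x₀) → IsSquare (F.eval x₁) → F.eval x₁ ≠ 0 →
      |(Nat.card (CanS (mb g F x₀)) : ℚ) - Nat.card (CanS (C (F.eval x₀) * mb g F x₁)) -
        2 * Cc p (g - 1) * sj p g F 1| < Cc p (g - 1) := by
  obtain ⟨b, hb0, hb⟩ := sj_bound g
  have hβ : (1 : ℝ) ≤ b + 1 := by linarith
  refine ⟨⌈(4 * ((g : ℝ) + 1) * (b + 1) ^ g) ^ 2⌉₊ + 2, ?_⟩
  intro p _ hp F hF hF' hs x₀ x₁ h₀ h₁ h₁'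
  have hp2 : p ≠ 2 := by omega
  have hp1 : (1 : ℝ) ≤ p := by exact_mod_cast (Fact.out : p.Prime).one_le
  have hy1 : 1 ≤ Real.sqrt p := Real.one_le_sqrt.2 hp1
  have hy2 : Real.sqrt p ^ 2 = p := Real.sq_sqrt (Nat.cast_nonneg p)
  have hyL : 4 * ((g : ℝ) + 1) * (b + 1) ^ g < Real.sqrt p := by
    apply Real.lt_sqrt_of_sq_lt
    have h1 := Nat.le_ceil ((4 * ((g : ℝ) + 1) * (b + 1) ^ g) ^ 2)
    have h2 : ((⌈(4 * ((g : ℝ) + 1) * (b + 1) ^ g) ^ 2⌉₊ + 2 : ℕ) : ℝ) < p := by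
      exact_mod_cast hp
    push_cast at h2
    linarith
  obtain ⟨P, hP⟩ := nw_ex (fun j => (sj p g F j : ℚ))
  have hs' : ∀ j, 0 < j → |(((sj p g F j : ℤ) : ℚ) : ℝ)| ≤ (b + 1) * Real.sqrt p ^ j := by
    intro j hj
    have h1 := hb p hp2 F hF (by omega) hs j hj
    have h2 : 0 ≤ Real.sqrt p ^ j := by positivity
    rw [Rat.cast_intCast]
    linarith
  have hPb := P_bound hβ (Real.sqrt_nonneg p) hP hs'
  have hP1 : P 1 = (sj p g F 1 : ℚ) := by
    have h1 := hP.step 1 one_pos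
    simpa [hP.zero] using h1
  have hd := diff_eq hp2 hF hF' hs h₀ h₁ h₁' hP
  have h1m : 1 ∈ Finset.range (g + 1) := Finset.mem_range.2 (by omega)
  rw [← Finset.add_sum_erase _ _ h1m, if_pos (by norm_num), hP1] at hd
  set S : ℚ := ∑ i ∈ (Finset.range (g + 1)).erase 1,
    (if i % 2 = 1 then P i * Cc p (g - i) else 0) with hS
  have hgoal : (Nat.card (CanS (mb g F x₀)) : ℚ) -
      Nat.card (CanS (C (F.eval x₀) * mb g F x₁)) - 2 * Cc p (g - 1) * sj p g F 1 =
      2 * S := by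
    rw [hd]
    ring
  rw [hgoal]
  have hterm : ∀ i ∈ (Finset.range (g + 1)).erase 1,
      Real.sqrt p * |(((if i % 2 = 1 then P i * Cc p (g - i) else 0 : ℚ)) : ℝ)| ≤
        2 * (b + 1) ^ g * Real.sqrt p ^ (2 * (g - 1)) := by
    intro i hi
    obtain ⟨hi1, hi2⟩ := Finset.mem_erase.1 hi
    rw [Finset.mem_range] at hi2
    split_ifs with h
    · have hi3 : 3 ≤ i := by omega
      have e1 := hPb i
      have e2 := cc_le_Near (p := p) rfl hy2 hp1 (g - i)
      have e3 := cc_nonneg_Near p (g - i)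
      push_cast
      rw [abs_mul, abs_of_nonneg e3]
      calc Real.sqrt p * (|(P i : ℝ)| * ((Cc p (g - i) : ℚ) : ℝ)) ≤
            Real.sqrt p * (((b + 1) ^ i * Real.sqrt p ^ i) *
              (2 * Real.sqrt p ^ (2 * (g - i)))) := by
            refine mul_le_mul_of_nonneg_left ?_ (Real.sqrt_nonneg _)
            exact mul_le_mul e1 e2 e3 (by positivity)
        _ = 2 * ((b + 1) ^ i * Real.sqrt p ^ (1 + i + 2 * (g - i))) := by
            rw [pow_add, pow_add, pow_one]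
            ring
        _ ≤ 2 * ((b + 1) ^ g * Real.sqrt p ^ (2 * (g - 1))) := by
            refine mul_le_mul_of_nonneg_left ?_ (by norm_num)
            exact mul_le_mul (pow_le_pow_right₀ hβ (by omega))
              (pow_le_pow_right₀ hy1 (by omega)) (by positivity) (by positivity)
        _ = 2 * (b + 1) ^ g * Real.sqrt p ^ (2 * (g - 1)) := by ring
    · rw [Rat.cast_zero, abs_zero, mul_zero]
      positivity
  have hsum : Real.sqrt p * |(S : ℝ)| ≤
      ((g : ℝ) + 1) * (2 * (b + 1) ^ g * Real.sqrt p ^ (2 * (g - 1))) := by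
    have hnn : (0 : ℝ) ≤ 2 * (b + 1) ^ g * Real.sqrt p ^ (2 * (g - 1)) := by positivity
    calc Real.sqrt p * |(S : ℝ)| ≤ Real.sqrt p * ∑ i ∈ (Finset.range (g + 1)).erase 1,
          |(((if i % 2 = 1 then P i * Cc p (g - i) else 0 : ℚ)) : ℝ)| := by
          refine mul_le_mul_of_nonneg_left ?_ (Real.sqrt_nonneg _)
          rw [hS, Rat.cast_sum]
          exact Finset.abs_sum_le_sum_abs _ _
      _ = ∑ i ∈ (Finset.range (g + 1)).erase 1, Real.sqrt p *
          |(((if i % 2 = 1 then P i * Cc p (g - i) else 0 : ℚ)) : ℝ)| := Finset.mul_sum _ _ _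
      _ ≤ ∑ i ∈ (Finset.range (g + 1)).erase 1,
          (2 * (b + 1) ^ g * Real.sqrt p ^ (2 * (g - 1))) := Finset.sum_le_sum hterm
      _ ≤ ((g : ℝ) + 1) * (2 * (b + 1) ^ g * Real.sqrt p ^ (2 * (g - 1))) := by
          rw [Finset.sum_const, nsmul_eq_mul]
          refine mul_le_mul_of_nonneg_right ?_ hnn
          have hc := Finset.card_le_card (Finset.erase_subset 1 (Finset.range (g + 1)))
          rw [Finset.card_range] at hc
          exact_mod_cast hc
  have hD : (0 : ℝ) < Real.sqrt p ^ (2 * (g - 1)) := by positivity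
  have hCge := cc_ge_Near (p := p) rfl hy2 (g - 1)
  have hfin : |(2 * S : ℝ)| < ((Cc p (g - 1) : ℚ) : ℝ) := by
    refine lt_of_lt_of_le ?_ hCge
    have hyp : 0 < Real.sqrt p := lt_of_lt_of_le one_pos hy1
    refine lt_of_mul_lt_mul_left ?_ hyp.le
    rw [abs_mul, abs_of_pos (by norm_num : (0 : ℝ) < 2)]
    have h5 := mul_lt_mul_of_pos_right hyL hD
    nlinarith
  exact_mod_cast hfin

end Pool.Agent.HyZ
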