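import Pool.Agent.HyZ.Defs

/-!
# Package HyZ-AnR: ideals and reduced pairs

Complete proofs. Over a finite field there are finitely many polynomials of bounded degree
(`Polynomial.degreeLT`, or injection to `Fin n → k`), `q ^ i` monic ones of degree `i`. By `hnf` and
`hnf_uniq` the nonzero ideals correspond to the triples `(d, u, v)` with monic `d` and reduced pairs
`(u, v)`, and the norm has degree `2 deg d + deg u` (`nrm_d_idl`). So the ideals with norm of degree
`n` correspond to the pairs of a monic `d` of degree `i ≤ n / 2` and a reduced pair of degree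
`n - 2 i`. `card_canS`: the sets of the reduced pairs of degrees `g, g - 2, ...` are disjoint.
-/

set_option autoImplicit false

noncomputable section

namespace Pool.Agent.HyZ

open Polynomial Pool.Agent.HyE
open scoped Classical

variable {k : Type} [Field k] [Finite k] {f : k[X]}

private theorem fin_degreeLT (m : ℕ) : Finite (degreeLT k m) :=
  Finite.of_equiv (Fin m → k) (degreeLTEquiv k m).toEquiv.symm

/-- the monic polynomials of degree `i` -/
private abbrev Mn (k : Type) [Field k] (i : ℕ) : Type := {d : k[X] // d.Monic ∧ d.natDegree = i}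

/-- the reduced pairs of degree `m` -/
private abbrev Pn (f : k[X]) (m : ℕ) : Type :=
  {w : k[X] × k[X] // SP f w.1 w.2 ∧ w.2.degree < w.1.degree ∧ w.1.natDegree = m}

omit [Finite k] in
private theorem mn_bij (i : ℕ) : Function.Bijective (fun p : degreeLT k i =>
    (⟨X ^ i + (p : k[X]), by
      have h := mem_degreeLT.1 p.2
      refine ⟨monic_X_pow_add h, ?_⟩
      rw [natDegree_eq_of_degree_eq_some (n := i)]
      rw [degree_add_eq_left_of_degree_lt (by rwa [degree_X_pow]), degree_X_pow]⟩ : Mn k i)) := by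
  constructor
  · intro p p' h
    have h1 := congrArg Subtype.val h
    simp only [add_right_inj] at h1
    exact Subtype.ext h1
  · rintro ⟨d, hd, hi⟩
    have h1 : (d - X ^ i).degree < (i : WithBot ℕ) := by
      have h2 : d.degree = (i : WithBot ℕ) := by
        rw [degree_eq_natDegree hd.ne_zero, hi]
      rw [← h2]
      refine degree_sub_lt_left ?_ hd.ne_zero ?_
      · rw [h2, degree_X_pow]
      · rw [hd.leadingCoeff, (monic_X_pow i).leadingCoeff]
    refine ⟨⟨d - X ^ i, mem_degreeLT.2 h1⟩, ?_⟩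
    apply Subtype.ext
    simp

private theorem card_mn (i : ℕ) : Nat.card (Mn k i) = Nat.card k ^ i := by
  have : Finite (degreeLT k i) := fin_degreeLT i
  rw [← Nat.card_eq_of_bijective _ (mn_bij (k := k) i),
    Nat.card_congr (degreeLTEquiv k i).toEquiv, Nat.card_fun, Nat.card_fin]

private theorem fin_mn (i : ℕ) : Finite (Mn k i) := by
  have : Finite (degreeLT k i) := fin_degreeLT i
  exact Finite.of_surjective _ (mn_bij (k := k) i).2

theorem fin_pairs (m : ℕ) : Finite {w : k[X] × k[X] // SP f w.1 w.2 ∧ w.2.degree < w.1.degree ∧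
    w.1.natDegree = m} := by
  have h0 : Finite (degreeLT k (m + 1)) := fin_degreeLT (m + 1)
  have key : ∀ w : {w : k[X] × k[X] // SP f w.1 w.2 ∧ w.2.degree < w.1.degree ∧
      w.1.natDegree = m}, w.1.1 ∈ degreeLT k (m + 1) ∧ w.1.2 ∈ degreeLT k (m + 1) := by
    rintro ⟨⟨u, v⟩, h, hv, hm⟩
    simp only at h hv hm
    have h1 : u.degree < ((m + 1 : ℕ) : WithBot ℕ) := by
      rw [degree_eq_natDegree h.1.ne_zero, hm]
      exact_mod_cast Nat.lt_succ_self m
    exact ⟨mem_degreeLT.2 h1, mem_degreeLT.2 (hv.trans h1)⟩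
  refine Finite.of_injective (β := degreeLT k (m + 1) × degreeLT k (m + 1))
    (fun w => (⟨w.1.1, (key w).1⟩, ⟨w.1.2, (key w).2⟩)) ?_
  intro w w' h
  simp only [Prod.mk.injEq, Subtype.mk.injEq] at h
  exact Subtype.ext (Prod.ext h.1 h.2)

omit [Finite k] in
private theorem mul_ne_bot' (hf : Inert f) {d u v : k[X]} (hd : d.Monic) (h : SP f u v) :
    Ideal.span {rl d} * idl f u v ≠ (⊥ : Ideal (Rg f)) := by
  intro h0
  have h1 : (rl (d * u) : Rg f) ∈ Ideal.span {rl d} * idl f u v := by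
    rw [mem_d_idl hf hd h]
    simp
  rw [h0, Ideal.mem_bot] at h1
  exact (hd.mul h.1).ne_zero (congrArg QuadraticAlgebra.re h1)

omit [Finite k] in
private theorem an_bij (hf : Inert f) (n : ℕ) : Function.Bijective
    (fun t : (Σ i : Fin (n / 2 + 1), Mn k i × Pn f (n - 2 * i)) =>
      (⟨Ideal.span {rl (t.2.1 : k[X])} * idl f t.2.2.1.1 t.2.2.1.2, by
        obtain ⟨⟨i, hi⟩, ⟨d, hd, hdi⟩, ⟨⟨u, v⟩, h, hv, hm⟩⟩ := t
        simp only at h hv hm hdi ⊢
        refine ⟨mul_ne_bot' hf hd h, ?_⟩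
        rw [nrm_d_idl hf hd h, (hd.pow 2).natDegree_mul h.1, hd.natDegree_pow, hdi, hm]
        omega⟩ : {I : Ideal (Rg f) // I ≠ ⊥ ∧ (nrm I).natDegree = n})) := by
  constructor
  · rintro ⟨⟨i, hi⟩, ⟨d, hd, hdi⟩, ⟨⟨u, v⟩, h, hv, hm⟩⟩
      ⟨⟨i', hi'⟩, ⟨d', hd', hdi'⟩, ⟨⟨u', v'⟩, h', hv', hm'⟩⟩ he
    simp only at h hv hm hdi h' hv' hm' hdi'
    have he1 := congrArg Subtype.val he
    simp only at he1
    obtain ⟨rfl, rfl, rfl⟩ := hnf_uniq hf hd hd' h h' hv hv' he1
    obtain rfl : i = i' := hdi.symm.trans hdi'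
    rfl
  · rintro ⟨I, hI, hn⟩
    obtain ⟨d, u, v, hd, h, hv, rfl⟩ := hnf hf hI
    rw [nrm_d_idl hf hd h, (hd.pow 2).natDegree_mul h.1, hd.natDegree_pow] at hn
    refine ⟨⟨⟨d.natDegree, by omega⟩, ⟨d, hd, rfl⟩, ⟨⟨u, v⟩, h, hv, ?_⟩⟩, rfl⟩
    simp only
    omega

theorem fin_ideals (hf : Inert f) (n : ℕ) :
    Finite {I : Ideal (Rg f) // I ≠ ⊥ ∧ (nrm I).natDegree = n} := by
  have h1 : ∀ i, Finite (Mn k i) := fin_mn
  have h2 : ∀ m, Finite (Pn f m) := fin_pairs
  exact Finite.of_surjective _ (an_bij hf n).2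

theorem an_eq (hf : Inert f) (n : ℕ) :
    an f n = ∑ i ∈ Finset.range (n / 2 + 1), Nat.card k ^ i * Rn f (n - 2 * i) := by
  have h1 : ∀ i, Finite (Mn k i) := fin_mn
  have h2 : ∀ m, Finite (Pn f m) := fin_pairs
  unfold an
  rw [← Nat.card_eq_of_bijective _ (an_bij hf n), Nat.card_sigma, Finset.sum_range]
  refine Finset.sum_congr rfl fun i _ => ?_
  rw [Nat.card_prod, card_mn]
  rfl

theorem an_zero (hf : Inert f) : an f 0 = 1 := by
  rw [an_eq hf 0]
  simp only [Nat.zero_div, zero_add, Finset.range_one, Finset.sum_singleton, pow_zero, mul_zero,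
    Nat.sub_zero, one_mul]
  unfold Rn
  rw [Nat.card_eq_one_iff_unique]
  constructor
  · constructor
    rintro ⟨⟨u, v⟩, h, hv, hm⟩ ⟨⟨u', v'⟩, h', hv', hm'⟩
    simp only at h hv hm h' hv' hm'
    have e1 : u = 1 := h.1.natDegree_eq_zero.1 hm
    have e2 : u' = 1 := h'.1.natDegree_eq_zero.1 hm'
    subst e1 e2
    rw [degree_one] at hv hv'
    have e3 : v = 0 := degree_eq_bot.1 (Nat.WithBot.lt_zero_iff.1 hv)
    have e4 : v' = 0 := degree_eq_bot.1 (Nat.WithBot.lt_zero_iff.1 hv')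
    subst e3 e4
    rfl
  · refine ⟨⟨⟨1, 0⟩, ⟨monic_one, one_dvd _⟩, ?_, natDegree_one⟩⟩
    simp

omit [Finite k] in
private theorem can_bij (f : k[X]) : Function.Bijective
    (fun t : (Σ i : Fin (gn f / 2 + 1), Pn f (gn f - 2 * i)) =>
      (⟨t.2.1, by
        obtain ⟨⟨i, hi⟩, ⟨⟨u, v⟩, h, hv, hm⟩⟩ := t
        simp only at h hv hm
        refine ⟨h, hv, ?_, ?_⟩
        · simp only
          omega
        · simp only
          omega⟩ : CanS f)) := by
  constructor
  · rintro ⟨⟨i, hi⟩, ⟨⟨u, v⟩, h, hv, hm⟩⟩ ⟨⟨i', hi'⟩, ⟨⟨u', v'⟩, h', hv', hm'⟩⟩ he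
    simp only at h hv hm h' hv' hm'
    have he1 := congrArg Subtype.val he
    simp only [Prod.mk.injEq] at he1
    obtain ⟨rfl, rfl⟩ := he1
    obtain rfl : i = i' := by omega
    rfl
  · rintro ⟨⟨u, v⟩, h, hv, hm, hp⟩
    simp only at h hv hm hp
    refine ⟨⟨⟨(gn f - u.natDegree) / 2, by omega⟩, ⟨⟨u, v⟩, h, hv, ?_⟩⟩, rfl⟩
    simp only
    omega

theorem card_canS (f : k[X]) :
    Nat.card (CanS f) = ∑ i ∈ Finset.range (gn f / 2 + 1), Rn f (gn f - 2 * i) := by
  have h2 : ∀ m, Finite (Pn f m) := fin_pairs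
  rw [← Nat.card_eq_of_bijective _ (can_bij f), Nat.card_sigma, Finset.sum_range]
  rfl

end Pool.Agent.HyZ
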