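import Pool.Agent.HyZ.AnR

/-!
# Package HyZ-Fact: the recursion from the unique factorisation of ideals

Complete proof of `an_rec`. For a nonzero ideal `I` with norm of degree `n` the factorisation into
primes (`UniqueFactorizationMonoid.normalizedFactors`, `Ideal.prod_normalizedFactors_eq_self`) and
`nrm_deg_mul` give `n = ∑_P v_P(I) deg P = ∑ deg P` over the pairs `(P, e)`, `1 ≤ e ≤ n`, `P` a prime with
`P ^ e ∣ I`. Sum over `I`: `n a_n = ∑_(P, e) deg P #{I | P ^ e ∣ I, deg I = n}`, and the ideals divisible by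
`P ^ e` are the `P ^ e J` with `deg J = n - e deg P` (cancellation in the Dedekind domain): this
number is `a_(n - e deg P)` if `e deg P ≤ n` and `0` otherwise. Group by `j = e deg P`, `d = deg P ∣ j`
(`deg P ≥ 1` by `nrm_eq_zero_iff`): `∑_j (∑_{d ∣ j} d pn d) a_(n - j)`. All sets are finite (`fin_ideals`).
-/

set_option autoImplicit false

noncomputable section

namespace Pool.Agent.HyZ

open Polynomial Pool.Agent.HyE
open scoped Classical

variable {k : Type} [Field k] [Finite k] {f : k[X]}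

/-- the primes with norm of degree at most `n` -/
private abbrev PT (f : k[X]) (n : ℕ) : Type := {P : Ideal (Rg f) // P.IsPrime ∧ P ≠ ⊥ ∧
      (nrm P).natDegree ≤ n}

private theorem fin_PT (hf : Inert f) (n : ℕ) : Finite (PT f n) := by
  have h : ∀ m, Finite {I : Ideal (Rg f) // I ≠ ⊥ ∧ (nrm I).natDegree = m} := fin_ideals hf
  refine Finite.of_injective (β := Σ m : Fin (n + 1),
    {I : Ideal (Rg f) // I ≠ ⊥ ∧ (nrm I).natDegree = m})
    (fun I => ⟨⟨(nrm I.1).natDegree, by have := I.2.2.2; omega⟩, ⟨I.1, I.2.2.1, rfl⟩⟩) ?_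
  intro I I' h1
  have h2 := congrArg (fun t : (Σ m : Fin (n + 1),
    {I : Ideal (Rg f) // I ≠ ⊥ ∧ (nrm I).natDegree = m}) => (t.2.1 : Ideal (Rg f))) h1
  exact Subtype.ext h2

omit [Finite k] in
private theorem deg_pos (hf : Inert f) {P : Ideal (Rg f)} (hP : P.IsPrime) (h0 : P ≠ ⊥) :
    1 ≤ (nrm P).natDegree := by
  rw [Nat.one_le_iff_ne_zero, Ne, nrm_eq_zero_iff hf h0]
  exact hP.ne_top

omit [Finite k] in
private theorem deg_pow (hf : Inert f) {P : Ideal (Rg f)} (h0 : P ≠ ⊥) (e : ℕ) :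
    P ^ e ≠ ⊥ ∧ (nrm (P ^ e)).natDegree = e * (nrm P).natDegree := by
  have := isDomain hf
  induction e with
  | zero =>
    rw [pow_zero, Ideal.one_eq_top, zero_mul]
    exact ⟨top_ne_bot, (nrm_eq_zero_iff hf top_ne_bot).2 rfl⟩
  | succ e ih =>
    have h1 : P ^ (e + 1) ≠ ⊥ := by
      have h2 : P ^ (e + 1) ≠ 0 := pow_ne_zero _ (by rwa [Ne, Ideal.zero_eq_bot])
      rwa [Ne, Ideal.zero_eq_bot] at h2
    refine ⟨h1, ?_⟩
    rw [pow_succ, nrm_deg_mul hf ih.1 h0, ih.2]
    ring

omit [Finite k] in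
private theorem step_one (hf : Inert f) {a p P : Ideal (Rg f)} (ha : a ≠ ⊥) (hp0 : p ≠ ⊥)
    (hp : p.IsPrime) (hP0 : P ≠ ⊥) (hP : P.IsPrime) {n : ℕ}
    (hn : (nrm (p * a)).natDegree ≤ n) :
    (∑ e ∈ Finset.Icc 1 n, if P ^ e ∣ p * a then (nrm P).natDegree else 0) =
      (∑ e ∈ Finset.Icc 1 n, if P ^ e ∣ a then (nrm P).natDegree else 0) +
        if P = p then (nrm p).natDegree else 0 := by
  have := isDedekind hf
  have := isDomain hf
  have hpp : Prime p := (Ideal.prime_iff_isPrime hp0).2 hp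
  have hPP : Prime P := (Ideal.prime_iff_isPrime hP0).2 hP
  rw [nrm_deg_mul hf hp0 ha] at hn
  have hd := deg_pos hf hp hp0
  by_cases h : P = p
  · subst h
    rw [if_pos rfl]
    have h1 : ¬ P ^ n ∣ a := by
      rintro ⟨b, hb⟩
      have hb0 : b ≠ ⊥ := by
        rintro rfl
        apply ha
        rw [hb, Ideal.mul_bot]
      have h2 := deg_pow hf hP0 n
      have h3 := nrm_deg_mul hf h2.1 hb0
      rw [← hb, h2.2] at h3
      have h4 : n * 1 ≤ n * (nrm P).natDegree := Nat.mul_le_mul_left n hd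
      omega
    have h2 : ∑ e ∈ Finset.range (n + 1), (if P ^ e ∣ a then (nrm P).natDegree else 0) =
        ∑ e ∈ Finset.range n, (if P ^ e ∣ a then (nrm P).natDegree else 0) := by
      rw [Finset.sum_range_succ, if_neg h1, add_zero]
    have h3 : ∑ e ∈ Finset.range (n + 1), (if P ^ e ∣ a then (nrm P).natDegree else 0) =
        (∑ e ∈ Finset.Icc 1 n, (if P ^ e ∣ a then (nrm P).natDegree else 0)) +
          (nrm P).natDegree := by
      rw [Finset.range_eq_Ico, Finset.sum_eq_sum_Ico_succ_bot (Nat.succ_pos n), pow_zero,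
        if_pos (one_dvd a), add_comm]
      rfl
    rw [← h3, h2]
    refine Finset.sum_nbij' (fun e => e - 1) (fun e => e + 1) ?_ ?_ ?_ ?_ ?_
    · intro e he
      rw [Finset.mem_Icc] at he
      rw [Finset.mem_range]
      omega
    · intro e he
      rw [Finset.mem_range] at he
      rw [Finset.mem_Icc]
      omega
    · intro e he
      rw [Finset.mem_Icc] at he
      omega
    · intro e _
      simp
    · intro e he
      rw [Finset.mem_Icc] at he
      obtain ⟨m, rfl⟩ : ∃ m, e = m + 1 := ⟨e - 1, by omega⟩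
      have h5 : P ^ (m + 1) ∣ P * a ↔ P ^ m ∣ a := by
        rw [pow_succ']
        exact mul_dvd_mul_iff_left hPP.ne_zero
      simp only [h5, Nat.add_sub_cancel]
  · rw [if_neg h, add_zero]
    refine Finset.sum_congr rfl fun e _ => ?_
    have h1 : ¬ P ∣ p := by
      intro h2
      exact h (associated_iff_eq.1 ((hPP.dvd_prime_iff_associated hpp).1 h2))
    have h5 : P ^ e ∣ p * a ↔ P ^ e ∣ a := by
      constructor
      · exact hPP.pow_dvd_of_dvd_mul_left e h1
      · intro h6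
        exact Dvd.dvd.mul_left h6 p
    simp only [h5]

omit [Finite k] in
private theorem sum_group (n : ℕ) (g : ℕ → ℕ) (a : ℕ → ℕ) :
    ∑ e ∈ Finset.Icc 1 n, ∑ d ∈ Finset.Icc 1 n, g d * (if e * d ≤ n then a (n - e * d) else 0) =
      ∑ j ∈ Finset.Icc 1 n, (∑ d ∈ j.divisors, g d) * a (n - j) := by
  have h1 : ∀ j ∈ Finset.Icc 1 n, (∑ d ∈ j.divisors, g d) * a (n - j) =
      ∑ d ∈ Finset.Icc 1 n, if d ∣ j then g d * a (n - j) else 0 := by
    intro j hj
    rw [Finset.mem_Icc] at hj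
    rw [Finset.sum_mul, ← Finset.sum_filter]
    apply Finset.sum_congr _ (fun _ _ => rfl)
    ext d
    rw [Nat.mem_divisors, Finset.mem_filter, Finset.mem_Icc]
    constructor
    · rintro ⟨h, _⟩
      exact ⟨⟨Nat.pos_of_dvd_of_pos h (by omega), (Nat.le_of_dvd (by omega) h).trans hj.2⟩, h⟩
    · rintro ⟨_, h⟩
      exact ⟨h, by omega⟩
  rw [Finset.sum_congr rfl h1, Finset.sum_comm, Finset.sum_comm (s := Finset.Icc 1 n)
    (t := Finset.Icc 1 n) (f := fun j d => if d ∣ j then g d * a (n - j) else 0)]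
  refine Finset.sum_congr rfl fun d hd => ?_
  rw [Finset.mem_Icc] at hd
  have h2 : ∑ e ∈ Finset.Icc 1 n, g d * (if e * d ≤ n then a (n - e * d) else 0) =
      ∑ e ∈ (Finset.Icc 1 n).filter (fun e => e * d ≤ n), g d * a (n - e * d) := by
    rw [Finset.sum_filter]
    refine Finset.sum_congr rfl fun e _ => ?_
    split_ifs <;> simp
  rw [h2, ← Finset.sum_filter]
  refine Finset.sum_nbij' (fun e => e * d) (fun j => j / d) ?_ ?_ ?_ ?_ ?_
  · intro e he
    rw [Finset.mem_filter, Finset.mem_Icc] at he ⊢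
    exact ⟨⟨Nat.mul_pos (by omega) (by omega), he.2⟩, dvd_mul_left d e⟩
  · intro j hj
    rw [Finset.mem_filter, Finset.mem_Icc] at hj ⊢
    obtain ⟨⟨hj1, hj2⟩, c, rfl⟩ := hj
    have hc : 0 < c := by
      rcases Nat.eq_zero_or_pos c with h | h
      · rw [h, mul_zero] at hj1; omega
      · exact h
    rw [Nat.mul_div_cancel_left _ (by omega : 0 < d)]
    refine ⟨⟨hc, ?_⟩, by rw [mul_comm]; exact hj2⟩
    calc c = 1 * c := (one_mul c).symm
      _ ≤ d * c := Nat.mul_le_mul_right c hd.1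
      _ ≤ n := hj2
  · intro e _
    exact Nat.mul_div_cancel _ (by omega : 0 < d)
  · intro j hj
    rw [Finset.mem_filter] at hj
    exact Nat.div_mul_cancel hj.2
  · intro e _
    rfl

/-- the ideals with norm of degree `n` divisible by `Q` -/
private theorem card_dvd (hf : Inert f) {Q : Ideal (Rg f)} (hQ : Q ≠ ⊥) (n : ℕ) :
    Nat.card {I : {I : Ideal (Rg f) // I ≠ ⊥ ∧ (nrm I).natDegree = n} // Q ∣ I.1} =
      if (nrm Q).natDegree ≤ n then an f (n - (nrm Q).natDegree) else 0 := by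
  have := isDedekind hf
  have := isDomain hf
  have hQ0 : Q ≠ 0 := by rwa [Ne, Ideal.zero_eq_bot]
  split_ifs with h
  · unfold an
    symm
    apply Nat.card_eq_of_bijective
      (fun J : {J : Ideal (Rg f) // J ≠ ⊥ ∧ (nrm J).natDegree = n - (nrm Q).natDegree} =>
        (⟨⟨Q * J.1, by
          refine ⟨?_, ?_⟩
          · have h1 : Q * J.1 ≠ 0 := mul_ne_zero hQ0 (by
              have h2 := J.2.1
              rwa [Ne, Ideal.zero_eq_bot])
            rwa [Ne, Ideal.zero_eq_bot] at h1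
          · rw [nrm_deg_mul hf hQ J.2.1, J.2.2]
            omega⟩, dvd_mul_right Q J.1⟩ :
          {I : {I : Ideal (Rg f) // I ≠ ⊥ ∧ (nrm I).natDegree = n} // Q ∣ I.1}))
    constructor
    · intro J J' hJ
      have h1 := congrArg (fun t : {I : {I : Ideal (Rg f) // I ≠ ⊥ ∧ (nrm I).natDegree = n} //
        Q ∣ I.1} => t.1.1) hJ
      exact Subtype.ext (mul_left_cancel₀ hQ0 h1)
    · rintro ⟨⟨I, hI, hn⟩, J, hJ⟩
      simp only at hJ
      subst hJ
      have hJ0 : J ≠ ⊥ := by
        rintro rfl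
        exact hI (Ideal.mul_bot Q)
      refine ⟨⟨J, hJ0, ?_⟩, rfl⟩
      rw [nrm_deg_mul hf hQ hJ0] at hn
      omega
  · rw [Nat.card_eq_zero]
    left
    constructor
    rintro ⟨⟨I, hI, hn⟩, J, hJ⟩
    simp only at hJ
    subst hJ
    have hJ0 : J ≠ ⊥ := by
      rintro rfl
      exact hI (Ideal.mul_bot Q)
    rw [nrm_deg_mul hf hQ hJ0] at hn
    omega

theorem deg_eq_sum (hf : Inert f) {I : Ideal (Rg f)} (hI : I ≠ ⊥) (n : ℕ)
    (hn : (nrm I).natDegree ≤ n) :
    (nrm I).natDegree = ∑ e ∈ Finset.Icc 1 n, ∑ᶠ P : {P : Ideal (Rg f) // P.IsPrime ∧ P ≠ ⊥ ∧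
      (nrm P).natDegree ≤ n}, if P.1 ^ e ∣ I then (nrm P.1).natDegree else 0 := by
  have := isDedekind hf
  have := isDomain hf
  have hfin : Finite (PT f n) := fin_PT hf n
  have : Fintype (PT f n) := Fintype.ofFinite _
  simp only [finsum_eq_sum_of_fintype]
  revert hI hn
  refine UniqueFactorizationMonoid.induction_on_prime I ?_ ?_ ?_
  · intro h0
    exact absurd Ideal.zero_eq_bot h0
  · intro x hx h0 _
    rw [Ideal.isUnit_iff] at hx
    subst hx
    rw [(nrm_eq_zero_iff hf h0).2 rfl]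
    symm
    refine Finset.sum_eq_zero fun e he => Finset.sum_eq_zero fun P _ => ?_
    rw [Finset.mem_Icc] at he
    rw [if_neg]
    intro h1
    have h2 : P.1 ∣ (⊤ : Ideal (Rg f)) := (dvd_pow_self P.1 (by omega)).trans h1
    exact P.2.1.ne_top (top_le_iff.1 (Ideal.le_of_dvd h2))
  · intro a p ha hp ih _ hn
    have ha' : a ≠ ⊥ := by rwa [Ne, Ideal.zero_eq_bot] at ha
    have hp0 : p ≠ ⊥ := by
      have h1 := hp.ne_zero
      rwa [Ne, Ideal.zero_eq_bot] at h1
    have hpi : p.IsPrime := (Ideal.prime_iff_isPrime hp0).1 hp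
    have hdm := nrm_deg_mul hf hp0 ha'
    have ih' := ih ha' (by omega)
    rw [Finset.sum_comm, Finset.sum_congr rfl (fun P _ =>
      step_one hf ha' hp0 hpi P.2.2.1 P.2.1 hn), Finset.sum_add_distrib, Finset.sum_comm,
      ← ih', hdm, add_comm]
    congr 1
    have hin : (nrm p).natDegree ≤ n := by omega
    rw [Finset.sum_eq_single (⟨p, hpi, hp0, hin⟩ : PT f n)]
    · simp
    · intro P _ hP
      rw [if_neg]
      intro h1
      exact hP (Subtype.ext h1)
    · intro h
      exact absurd (Finset.mem_univ _) h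

theorem an_rec (hf : Inert f) (n : ℕ) (hn : 0 < n) :
    n * an f n = ∑ j ∈ Finset.Icc 1 n, Psi f j * an f (n - j) := by
  have := isDedekind hf
  have := isDomain hf
  have hfin : Finite (PT f n) := fin_PT hf n
  have : Fintype (PT f n) := Fintype.ofFinite _
  have hfI : Finite {I : Ideal (Rg f) // I ≠ ⊥ ∧ (nrm I).natDegree = n} := fin_ideals hf n
  have : Fintype {I : Ideal (Rg f) // I ≠ ⊥ ∧ (nrm I).natDegree = n} := Fintype.ofFinite _
  have h1 : n * an f n = ∑ I : {I : Ideal (Rg f) // I ≠ ⊥ ∧ (nrm I).natDegree = n},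
      ∑ e ∈ Finset.Icc 1 n, ∑ P : PT f n, if P.1 ^ e ∣ I.1 then (nrm P.1).natDegree else 0 := by
    have h2 : ∀ I : {I : Ideal (Rg f) // I ≠ ⊥ ∧ (nrm I).natDegree = n},
        ∑ e ∈ Finset.Icc 1 n, ∑ P : PT f n,
          (if P.1 ^ e ∣ I.1 then (nrm P.1).natDegree else 0) = n := by
      intro I
      have h3 := deg_eq_sum hf I.2.1 n I.2.2.le
      simp only [finsum_eq_sum_of_fintype] at h3
      rw [← h3, I.2.2]
    rw [Finset.sum_congr rfl (fun I _ => h2 I), Finset.sum_const, Finset.card_univ, smul_eq_mul,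
      mul_comm]
    unfold an
    rw [Nat.card_eq_fintype_card]
  rw [h1, Finset.sum_comm]
  have h4 : ∀ e ∈ Finset.Icc 1 n, ∑ I : {I : Ideal (Rg f) // I ≠ ⊥ ∧ (nrm I).natDegree = n},
      ∑ P : PT f n, (if P.1 ^ e ∣ I.1 then (nrm P.1).natDegree else 0) =
      ∑ d ∈ Finset.Icc 1 n, (d * pn f d) * (if e * d ≤ n then an f (n - e * d) else 0) := by
    intro e he
    rw [Finset.sum_comm]
    have h5 : ∀ P : PT f n, ∑ I : {I : Ideal (Rg f) // I ≠ ⊥ ∧ (nrm I).natDegree = n},
        (if P.1 ^ e ∣ I.1 then (nrm P.1).natDegree else 0) =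
        (nrm P.1).natDegree * (if e * (nrm P.1).natDegree ≤ n then
          an f (n - e * (nrm P.1).natDegree) else 0) := by
      intro P
      have h6 := card_dvd hf (deg_pow hf P.2.2.1 e).1 n
      rw [(deg_pow hf P.2.2.1 e).2] at h6
      rw [← Finset.sum_filter, Finset.sum_const, smul_eq_mul, mul_comm, ← h6,
        Nat.card_eq_fintype_card, Fintype.card_subtype]
    rw [Finset.sum_congr rfl (fun P _ => h5 P)]
    rw [← Finset.sum_fiberwise_of_maps_to (s := Finset.univ) (t := Finset.Icc 1 n)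
      (g := fun P : PT f n => (nrm P.1).natDegree)]
    · refine Finset.sum_congr rfl fun d hd => ?_
      rw [Finset.mem_Icc] at hd
      rw [Finset.sum_congr rfl (g := fun _ => d * (if e * d ≤ n then an f (n - e * d) else 0))]
      · rw [Finset.sum_const, smul_eq_mul]
        have h7 : (Finset.univ.filter (fun P : PT f n => (nrm P.1).natDegree = d)).card =
            pn f d := by
          unfold pn
          rw [← Fintype.card_subtype, ← Nat.card_eq_fintype_card]
          apply Nat.card_congr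
          exact
            { toFun := fun P => ⟨P.1.1, P.1.2.1, P.1.2.2.1, P.2⟩
              invFun := fun I => ⟨⟨I.1, I.2.1, I.2.2.1, by rw [I.2.2.2]; exact hd.2⟩, I.2.2.2⟩
              left_inv := fun P => rfl
              right_inv := fun I => rfl }
        rw [h7]
        ring
      · intro P hP
        rw [(Finset.mem_filter.1 hP).2]
    · intro P _
      rw [Finset.mem_Icc]
      exact ⟨deg_pos hf P.2.1 P.2.2.1, P.2.2.2⟩
  rw [Finset.sum_congr rfl h4, sum_group n (fun d => d * pn f d) (an f)]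
  rfl

end Pool.Agent.HyZ
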