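import Pool.Agent.HyE.Ded

/-!
# Package HyZ-Quo: the dimension of the quotients

Complete proof. By `hnf` `I = (d)(u, y - v)`; by `mem_d_idl` `a + b y ∈ I` iff `d ∣ b` and
`d u ∣ a + b v`. The `k`-linear map `a + b y ↦ (b mod d, (a + b v) mod d u)`... : precisely
`A → k[X]/(d) × k[X]/(d u)`, `a + b y ↦ (b, a + b v)` is surjective (given `b`, choose `a`) with kernel
`I`. So the dimension is `deg d + deg (d u) = deg (d² u)` (`nrm_d_idl`); the dimension of `k[X]/(c)` for
monic `c` is `deg c` (`finrank_quotient_span_eq_natDegree`, or `AdjoinRoot.powerBasis`).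
-/

set_option autoImplicit false

noncomputable section

namespace Pool.Agent.HyZ

open Polynomial Pool.Agent.HyE
open scoped Classical

variable {k : Type} [Field k] {f : k[X]}

private theorem quo_finite {c : k[X]} (hc : c.Monic) :
    Module.Finite k (k[X] ⧸ Ideal.span {c}) :=
  (AdjoinRoot.powerBasis hc.ne_zero).finite

/-- the map `a + b y ↦ (b, a + b v)` -/
private def quoMap (d c v : k[X]) :
    Rg f →ₗ[k] (k[X] ⧸ Ideal.span {d}) × (k[X] ⧸ Ideal.span {c}) where
  toFun z := (Ideal.Quotient.mk _ z.im, Ideal.Quotient.mk _ (z.re + z.im * v))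
  map_add' z w := by
    refine Prod.ext ?_ ?_
    · simp
    · simp only [QuadraticAlgebra.re_add, QuadraticAlgebra.im_add, Prod.snd_add, ← map_add]
      congr 1
      ring
  map_smul' r z := by
    have h1 : ∀ (c p : k[X]), Ideal.Quotient.mk (Ideal.span {c}) (r • p) =
        r • Ideal.Quotient.mk (Ideal.span {c}) p := fun c p => rfl
    refine Prod.ext ?_ ?_
    · simp only [QuadraticAlgebra.im_smul, RingHom.id_apply, Prod.smul_fst, h1]
    · simp only [QuadraticAlgebra.re_smul, QuadraticAlgebra.im_smul, RingHom.id_apply,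
        Prod.smul_snd, ← h1, smul_mul_assoc, ← smul_add]

theorem finrank_quot (hf : Inert f) {I : Ideal (Rg f)} (hI : I ≠ ⊥) :
    Module.Finite k (Rg f ⧸ I) ∧ Module.finrank k (Rg f ⧸ I) = (nrm I).natDegree := by
  obtain ⟨d, u, v, hd, h, _, rfl⟩ := hnf hf hI
  rw [nrm_d_idl hf hd h]
  have h1 := quo_finite hd
  have h2 := quo_finite (hd.mul h.1)
  have hker : LinearMap.ker (quoMap (f := f) d (d * u) v) =
      (Ideal.span {rl d} * idl f u v).restrictScalars k := by
    ext z
    rw [LinearMap.mem_ker, Submodule.restrictScalars_mem, mem_d_idl hf hd h, Prod.ext_iff]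
    change Ideal.Quotient.mk _ z.im = 0 ∧ Ideal.Quotient.mk _ (z.re + z.im * v) = 0 ↔ _
    rw [Ideal.Quotient.eq_zero_iff_mem, Ideal.Quotient.eq_zero_iff_mem,
      Ideal.mem_span_singleton, Ideal.mem_span_singleton]
  have hsurj : Function.Surjective (quoMap (f := f) d (d * u) v) := by
    rintro ⟨p, q⟩
    obtain ⟨b, rfl⟩ := Ideal.Quotient.mk_surjective p
    obtain ⟨a, rfl⟩ := Ideal.Quotient.mk_surjective q
    refine ⟨⟨a - b * v, b⟩, Prod.ext rfl ?_⟩
    change Ideal.Quotient.mk _ (a - b * v + b * v) = _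
    rw [sub_add_cancel]
  let e : ((k[X] ⧸ Ideal.span {d}) × (k[X] ⧸ Ideal.span {d * u})) ≃ₗ[k]
      (Rg f ⧸ (Ideal.span {rl d} * idl f u v)) :=
    ((quoMap (f := f) d (d * u) v).quotKerEquivOfSurjective hsurj).symm ≪≫ₗ
      Submodule.quotEquivOfEq _ _ hker ≪≫ₗ
        Submodule.Quotient.restrictScalarsEquiv k (Ideal.span {rl d} * idl f u v)
  refine ⟨Module.Finite.equiv e, ?_⟩
  rw [← e.finrank_eq, Module.finrank_prod, finrank_quotient_span_eq_natDegree,
    finrank_quotient_span_eq_natDegree, hd.natDegree_mul h.1,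
    (hd.pow 2).natDegree_mul h.1, hd.natDegree_pow]
  ring

end Pool.Agent.HyZ
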