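import Pool.Agent.HyZ.Defs
import Pool.Agent.HyZ.Quo

/-!
# Package HyZ-Pts: points over extensions and primes

Complete proofs.

* `hom_pts`: a homomorphism of `k`-algebras `Rg f → K` is given by the images `(a, b)` of `x` and `y`
  with `b² = f(a)` (`Polynomial.aeval`, `QuadraticAlgebra.lift`).
* `emb_card`: for finite fields `k ⊆ E`, `k ⊆ K` of degrees `d ∣ j` there are `d` embeddings of `E` in
  `K` over `k`: `AlgHom.card_of_powerBasis` with a primitive element (`Field.powerBasisOfFiniteOfSeparable`):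
  its minimal polynomial divides `X ^ (q ^ d) - X`, which divides `X ^ (q ^ j) - X`, which splits in `K`
  (`FiniteField`), and it is separable.
* `psi_pts`: the kernel of a homomorphism `Rg f → K` is a prime `P ≠ ⊥` (`Rg f` is infinite, `K` finite)
  and so maximal, with `deg P = [Rg f / P : k] ∣ j` (`finrank_quot`, `Module.finrank_mul_finrank`);
  the homomorphisms with kernel `P` are the embeddings of `Rg f / P`. There are finitely many
  primes of degree `d` (`Nat.card` of a subtype of `fin_ideals`, or: it follows as each gives at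
  least one of the finitely many homomorphisms).
* `pts_sum`: the number of the square roots of `a` in `K` is `1 + qc a` (`quadraticChar_card_sqrts`,
  or directly: `b`, `-b`, `2 ≠ 0`).
-/

set_option autoImplicit false

noncomputable section

namespace Pool.Agent.HyZ

open Polynomial Pool.Agent.HyE
open scoped Classical

private theorem pts_rl {k : Type} [Field k] (f : k[X]) (w : Rg f) :
    w = rl w.re + rl w.im * ⟨0, 1⟩ := by
  ext1 <;> simp

theorem hom_pts {k : Type} [Field k] (f : k[X]) (K : Type) [Field K] [Algebra k K] :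
    Nonempty ((Rg f →ₐ[k] K) ≃
      {z : K × K // z.2 ^ 2 = (f.map (algebraMap k K)).eval z.1}) := by
  let inc : k[X] →ₐ[k] Rg f := IsScalarTower.toAlgHom k k[X] (Rg f)
  have hinc : ∀ a : k[X], inc a = rl a := fun a => rfl
  have hae : ∀ (φ : Rg f →ₐ[k] K) (a : k[X]), φ (rl a) = aeval (φ (rl X)) a := by
    intro φ a
    have h : φ.comp inc = aeval (φ (rl X)) := by
      apply Polynomial.algHom_ext
      rw [aeval_X]
      rfl
    exact DFunLike.congr_fun h a
  have hy : (⟨0, 1⟩ : Rg f) ^ 2 = rl f := by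
    ext1 <;> simp [pow_two]
  have hev : ∀ a : K, (f.map (algebraMap k K)).eval a = aeval a f := by
    intro a
    rw [eval_map, aeval_def]
  refine ⟨⟨fun φ => ⟨(φ (rl X), φ ⟨0, 1⟩), ?_⟩, fun z => ?_, ?_, ?_⟩⟩
  · show φ ⟨0, 1⟩ ^ 2 = _
    rw [hev, ← map_pow, hy, hae]
  · refine AlgHom.mk ⟨⟨⟨fun w => aeval z.1.1 w.re + aeval z.1.1 w.im * z.1.2, ?_⟩, ?_⟩, ?_, ?_⟩ ?_
    · show aeval z.1.1 1 + aeval z.1.1 0 * z.1.2 = 1
      simp
    · intro w w'
      have h := z.2
      rw [hev] at h
      simp only [QuadraticAlgebra.re_mul, QuadraticAlgebra.im_mul, map_add, map_mul, map_zero]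
      linear_combination (-(aeval z.1.1 w.im) * aeval z.1.1 w'.im) * h
    · show aeval z.1.1 0 + aeval z.1.1 0 * z.1.2 = 0
      simp
    · intro w w'
      simp only [QuadraticAlgebra.re_add, QuadraticAlgebra.im_add, map_add]
      ring
    · intro c
      show aeval z.1.1 (C c) + aeval z.1.1 0 * z.1.2 = _
      simp
  · intro φ
    apply AlgHom.ext
    intro w
    show aeval (φ (rl X)) w.re + aeval (φ (rl X)) w.im * φ ⟨0, 1⟩ = φ w
    conv_rhs => rw [pts_rl f w]
    rw [map_add, map_mul, hae φ w.re, hae φ w.im]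
  · intro z
    apply Subtype.ext
    apply Prod.ext
    · show aeval z.1.1 X + aeval z.1.1 0 * z.1.2 = _
      simp
    · show aeval z.1.1 0 + aeval z.1.1 1 * z.1.2 = _
      simp

theorem emb_card {k E K : Type} [Field k] [Finite k] [Field E] [Field K] [Algebra k E]
    [Algebra k K] [Module.Finite k E] [Module.Finite k K]
    (h : Module.finrank k E ∣ Module.finrank k K) :
    Nat.card (E →ₐ[k] K) = Module.finrank k E := by
  have : Finite K := Module.finite_of_finite k
  exact FiniteField.natCard_algHom_of_finrank_dvd h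

private theorem pts_inf {k : Type} [Field k] (f : k[X]) : Infinite (Rg f) :=
  Infinite.of_injective (fun a : k[X] => (rl a : Rg f)) (fun _ _ h =>
    congrArg QuadraticAlgebra.re h)

/-- the homomorphisms with kernel `P` are the embeddings of the quotient -/
private theorem pts_fib {k : Type} [Field k] [Finite k] {f : k[X]} (hf : Inert f) (K : Type)
    [Field K] [Algebra k K] [Module.Finite k K] (P : Ideal (Rg f)) (hP : P.IsPrime)
    (h0 : P ≠ ⊥) (hd : (nrm P).natDegree ∣ Module.finrank k K) :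
    Nat.card {φ : Rg f →ₐ[k] K // RingHom.ker φ.toRingHom = P} = (nrm P).natDegree := by
  have := isDedekind hf
  have := isDomain hf
  have hm : P.IsMaximal := hP.isMaximal h0
  let _ : Field (Rg f ⧸ P) := Ideal.Quotient.field P
  obtain ⟨h1, h2⟩ := finrank_quot hf h0
  have := h1
  rw [← h2] at hd ⊢
  rw [← emb_card (k := k) (E := Rg f ⧸ P) (K := K) hd]
  apply Nat.card_congr
  refine ⟨fun φ => Ideal.Quotient.liftₐ P φ.1 (fun a ha => ?_), fun ψ =>
    ⟨ψ.comp (Ideal.Quotient.mkₐ k P), ?_⟩, ?_, ?_⟩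
  · have := φ.2
    rw [← this] at ha
    exact ha
  · ext a
    have hi : Function.Injective ψ := ψ.toRingHom.injective
    rw [RingHom.mem_ker]
    show ψ (Ideal.Quotient.mk P a) = 0 ↔ _
    rw [map_eq_zero_iff ψ hi, Ideal.Quotient.eq_zero_iff_mem]
  · intro φ
    apply Subtype.ext
    apply AlgHom.ext
    intro a
    rfl
  · intro ψ
    apply AlgHom.ext
    intro a
    obtain ⟨a, rfl⟩ := Ideal.Quotient.mk_surjective a
    rfl

private theorem pts_fin {k : Type} [Field k] [Finite k] (f : k[X]) (K : Type) [Field K]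
    [Algebra k K] [Module.Finite k K] : Finite (Rg f →ₐ[k] K) := by
  have : Finite K := Module.finite_of_finite k
  obtain ⟨e⟩ := hom_pts f K
  exact Finite.of_equiv _ e.symm

/-- the primes whose degree divides `[K : k]` -/
private def PrS {k : Type} [Field k] (f : k[X]) (j : ℕ) : Type :=
  {P : Ideal (Rg f) // P.IsPrime ∧ P ≠ ⊥ ∧ (nrm P).natDegree ∣ j}

private theorem pts_ker {k : Type} [Field k] [Finite k] {f : k[X]} (hf : Inert f) (K : Type)
    [Field K] [Algebra k K] [Module.Finite k K] (φ : Rg f →ₐ[k] K) :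
    (RingHom.ker φ.toRingHom).IsPrime ∧ RingHom.ker φ.toRingHom ≠ ⊥ ∧
      (nrm (RingHom.ker φ.toRingHom)).natDegree ∣ Module.finrank k K := by
  have : Finite K := Module.finite_of_finite k
  have h1 : (RingHom.ker φ.toRingHom).IsPrime := RingHom.ker_isPrime _
  have h2 : RingHom.ker φ.toRingHom ≠ ⊥ := by
    intro h
    have hi : Function.Injective φ.toRingHom := (RingHom.injective_iff_ker_eq_bot _).2 h
    have := pts_inf f
    exact not_injective_infinite_finite _ hi
  refine ⟨h1, h2, ?_⟩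
  have := isDedekind hf
  have := isDomain hf
  set P := RingHom.ker φ.toRingHom with hPd
  have hm : P.IsMaximal := h1.isMaximal h2
  let _ : Field (Rg f ⧸ P) := Ideal.Quotient.field P
  obtain ⟨h3, h4⟩ := finrank_quot hf h2
  rw [← h4]
  let ψ : (Rg f ⧸ P) →ₐ[k] K := Ideal.Quotient.liftₐ P φ (fun a ha => ha)
  let _ : Algebra (Rg f ⧸ P) K := ψ.toRingHom.toAlgebra
  have : IsScalarTower k (Rg f ⧸ P) K := IsScalarTower.of_algebraMap_eq' ψ.comp_algebraMap.symm
  rw [← Module.finrank_mul_finrank k (Rg f ⧸ P) K]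
  exact dvd_mul_right _ _

theorem psi_pts {k : Type} [Field k] [Finite k] {f : k[X]} (hf : Inert f) (K : Type) [Field K]
    [Algebra k K] [Module.Finite k K] :
    Psi f (Module.finrank k K) =
      Nat.card {z : K × K // z.2 ^ 2 = (f.map (algebraMap k K)).eval z.1} := by
  obtain ⟨e⟩ := hom_pts f K
  rw [← Nat.card_congr e]
  have := pts_fin f K
  set j := Module.finrank k K with hj
  have hj0 : j ≠ 0 := Module.finrank_pos.ne'
  let ke : (Rg f →ₐ[k] K) → PrS f j := fun φ => ⟨RingHom.ker φ.toRingHom, pts_ker hf K φ⟩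
  have hfib : ∀ P : PrS f j, Nat.card {φ : Rg f →ₐ[k] K // ke φ = P} =
      (nrm P.1).natDegree := by
    intro P
    rw [← pts_fib hf K P.1 P.2.1 P.2.2.1 P.2.2.2]
    apply Nat.card_congr
    refine Equiv.subtypeEquivRight (fun φ => ?_)
    exact ⟨fun h => congrArg Subtype.val h, fun h => Subtype.ext h⟩
  have hpos : ∀ P : PrS f j, 0 < (nrm P.1).natDegree := by
    intro P
    exact Nat.pos_of_dvd_of_pos P.2.2.2 (Nat.pos_of_ne_zero hj0)
  have hsur : Function.Surjective ke := by
    intro P
    have h1 := hfib P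
    have h2 : 0 < Nat.card {φ : Rg f →ₐ[k] K // ke φ = P} := by
      rw [h1]
      exact hpos P
    obtain ⟨φ⟩ := (Nat.card_pos_iff.1 h2).1
    exact ⟨φ.1, φ.2⟩
  have : Finite (PrS f j) := Finite.of_surjective ke hsur
  have := Fintype.ofFinite (PrS f j)
  rw [← Nat.card_congr (Equiv.sigmaFiberEquiv ke), Nat.card_sigma]
  simp only [hfib]
  rw [Psi, ← Finset.sum_fiberwise_of_maps_to (s := (Finset.univ : Finset (PrS f j)))
    (t := j.divisors) (g := fun P => (nrm P.1).natDegree)
    (fun P _ => Nat.mem_divisors.2 ⟨P.2.2.2, hj0⟩)]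
  refine Finset.sum_congr rfl (fun d hd => ?_)
  have hd' := (Nat.mem_divisors.1 hd).1
  rw [Finset.sum_congr rfl (g := fun _ => d) (fun P hP => (Finset.mem_filter.1 hP).2),
    Finset.sum_const, smul_eq_mul, mul_comm]
  congr 1
  rw [pn, ← Fintype.card_subtype, ← Nat.card_eq_fintype_card]
  apply Nat.card_congr
  refine ⟨fun I => ⟨⟨I.1, I.2.1, I.2.2.1, by rw [I.2.2.2]; exact hd'⟩, I.2.2.2⟩,
    fun P => ⟨P.1.1, P.1.2.1, P.1.2.2.1, P.2⟩, fun I => rfl, fun P => rfl⟩

private theorem pts_sq {K : Type} [Field K] [Finite K] (h2 : (2 : K) ≠ 0) (a : K) :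
    (Nat.card {y : K // y ^ 2 = a} : ℤ) = 1 + qc a := by
  unfold qc
  split_ifs with h0 h1
  · subst h0
    have : Nat.card {y : K // y ^ 2 = 0} = 1 := by
      rw [Nat.card_eq_one_iff_unique]
      refine ⟨⟨fun x y => ?_⟩, ⟨⟨0, by simp⟩⟩⟩
      apply Subtype.ext
      rw [pow_eq_zero_iff two_ne_zero |>.1 x.2, pow_eq_zero_iff two_ne_zero |>.1 y.2]
    rw [this]
    simp
  · obtain ⟨b, hb⟩ := h1
    have hb0 : b ≠ 0 := by
      rintro rfl
      exact h0 (by rw [hb]; simp)
    have hne : b ≠ -b := by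
      intro h
      have : 2 * b = 0 := by linear_combination h
      rcases mul_eq_zero.1 this with h | h
      · exact h2 h
      · exact hb0 h
    have : Nat.card {y : K // y ^ 2 = a} = 2 := by
      have e : {y : K | y ^ 2 = a} = {b, -b} := by
        ext y
        simp only [Set.mem_ofPred_eq, Set.mem_insert_iff, Set.mem_singleton_iff]
        rw [hb, ← pow_two, sq_eq_sq_iff_eq_or_eq_neg]
      have := congrArg Set.ncard e
      rw [Set.ncard_pair hne] at this
      exact this
    rw [this]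
    norm_num
  · have : IsEmpty {y : K // y ^ 2 = a} := ⟨fun y => h1 ⟨y.1, by rw [← pow_two, y.2]⟩⟩
    rw [Nat.card_of_isEmpty]
    simp

theorem pts_sum {K : Type} [Field K] [Finite K] (h2 : (2 : K) ≠ 0) (F : K[X]) :
    (Nat.card {z : K × K // z.2 ^ 2 = F.eval z.1} : ℤ) = Nat.card K + qs F := by
  have := Fintype.ofFinite K
  have e : {z : K × K // z.2 ^ 2 = F.eval z.1} ≃ Σ x : K, {y : K // y ^ 2 = F.eval x} :=
    ⟨fun z => ⟨z.1.1, z.1.2, z.2⟩, fun z => ⟨(z.1, z.2.1), z.2.2⟩, fun z => rfl, fun z => rfl⟩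
  rw [Nat.card_congr e, Nat.card_sigma]
  push_cast
  simp only [pts_sq h2]
  rw [Finset.sum_add_distrib, qs, finsum_eq_sum_of_fintype]
  simp

end Pool.Agent.HyZ
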