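import Pool.Agent.HyZ.Defs

/-!
# Package HyZ-Ser: the recursions

Complete proofs. Everything with power series over `ℚ`: `IsNw s c` iff `c 0 = 1` and
`X * d/dX C = S * C` for `C = ∑ c_n X^n`, `S = ∑_{j ≥ 1} s_j X^j` (compare coefficients), or directly.

* `nw_uniq`: strong induction. `nw_ex`: definition by strong recursion.
* `nw_mul`: product rule: `∑_{a+b=n} n c_a d_b = ∑ (a c_a) d_b + ∑ c_a (b d_b)`.
* `nw_pow`: `n q^n = ∑_{j=1}^n q^j q^(n-j)`. `nw_one`: `s_j = -(-1)^j`: `n = 1`: `1 = 1`; `n ≥ 2`: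
  `0 = s_n c_0 + s_(n-1) c_1`. `nw_sign`: multiply by `(-1)^n`.
* `h_sum`: by `nw_mul`, `nw_pow`, `nw_one`, `nw_uniq`: `a = P * (q^n) * (1, 1, 0, ...)`, i.e. as power
  series `(1 - q X) A = (1 + X) P`; `A (1 - q X²) = R`; `H (1 - X²) = R` for
  `H_g = ∑_i R_(g - 2 i)`; `C (1 - X)(1 - q X) = 1 - q X²` for `C = ∑ Cc q k X^k`. So
  `(1 + X)(1 - X)(1 - q X) H = (1 - q X) R = (1 - q X)(1 - q X²) A = (1 - q X²)(1 + X) P
  = (1 + X)(1 - X)(1 - q X) C P`; cancel.
-/

set_option autoImplicit false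

noncomputable section

namespace Pool.Agent.HyZ

open Finset

private theorem sum_Icc_Ser (f : ℕ → ℚ) (n : ℕ) :
    ∑ j ∈ Finset.Icc 1 n, f j = ∑ j ∈ range n, f (j + 1) := by
  rw [Finset.range_eq_Ico, Finset.sum_Ico_add' f 0 n 1]
  refine Finset.sum_congr ?_ fun _ _ => rfl
  ext x
  simp only [Finset.mem_Icc, Finset.mem_Ico]
  omega

/-- the solution of the recursion -/
private def cs_Ser (s : ℕ → ℚ) : ℕ → ℚ
  | 0 => 1
  | n + 1 => (1 / ((n : ℚ) + 1)) * ∑ j : Fin (n + 1), s (j + 1) * cs_Ser s (n - j)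
termination_by n => n
decreasing_by omega

theorem nw_ex (s : ℕ → ℚ) : ∃ c, IsNw s c := by
  refine ⟨cs_Ser s, by rw [cs_Ser], ?_⟩
  intro n hn
  obtain ⟨m, rfl⟩ : ∃ m, n = m + 1 := ⟨n - 1, by omega⟩
  rw [cs_Ser, Fin.sum_univ_eq_sum_range (fun j => s (j + 1) * cs_Ser s (m - j)) (m + 1),
    sum_Icc_Ser]
  have h1 : ((m : ℚ) + 1) ≠ 0 := by positivity
  push_cast
  rw [← mul_assoc, mul_one_div_cancel h1, one_mul]

theorem nw_uniq {s c c' : ℕ → ℚ} (h : IsNw s c) (h' : IsNw s c') : c = c' := by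
  funext n
  induction n using Nat.strong_induction_on with
  | _ n ih =>
    rcases Nat.eq_zero_or_pos n with rfl | hn
    · rw [h.zero, h'.zero]
    · have h1 : (n : ℚ) * c n = n * c' n := by
        rw [h.step n hn, h'.step n hn]
        refine Finset.sum_congr rfl fun j hj => ?_
        rw [Finset.mem_Icc] at hj
        rw [ih (n - j) (by omega)]
      have h2 : (n : ℚ) ≠ 0 := by positivity
      exact mul_left_cancel₀ h2 h1

/-- the Euler operator -/
private def E_Ser (f : PowerSeries ℚ) : PowerSeries ℚ :=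
  PowerSeries.mk fun n => (n : ℚ) * PowerSeries.coeff n f

private theorem E_mul_Ser (f g : PowerSeries ℚ) : E_Ser (f * g) = E_Ser f * g + f * E_Ser g := by
  ext n
  rw [map_add, PowerSeries.coeff_mul, PowerSeries.coeff_mul, ← Finset.sum_add_distrib]
  simp only [E_Ser, PowerSeries.coeff_mk]
  rw [PowerSeries.coeff_mul, Finset.mul_sum]
  refine Finset.sum_congr rfl fun x hx => ?_
  have hx2 : x.1 + x.2 = n := Finset.HasAntidiagonal.mem_antidiagonal.mp hx
  rw [← hx2]
  push_cast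
  ring

/-- the series of the sums -/
private def S_Ser (s : ℕ → ℚ) : PowerSeries ℚ := PowerSeries.mk fun j => if j = 0 then 0 else s j

private theorem nw_iff_Ser (s c : ℕ → ℚ) :
    IsNw s c ↔ c 0 = 1 ∧ E_Ser (PowerSeries.mk c) = S_Ser s * PowerSeries.mk c := by
  have key : ∀ n, PowerSeries.coeff n (S_Ser s * PowerSeries.mk c) =
      ∑ j ∈ Finset.Icc 1 n, s j * c (n - j) := by
    intro n
    rw [PowerSeries.coeff_mul, Finset.Nat.sum_antidiagonal_eq_sum_range_succ
      (fun a b => PowerSeries.coeff a (S_Ser s) * PowerSeries.coeff b (PowerSeries.mk c)),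
      Finset.sum_range_succ', sum_Icc_Ser]
    simp [S_Ser]
  constructor
  · intro h
    refine ⟨h.zero, ?_⟩
    ext n
    rw [key, E_Ser, PowerSeries.coeff_mk, PowerSeries.coeff_mk]
    rcases Nat.eq_zero_or_pos n with rfl | hn
    · simp
    · exact h.step n hn
  · rintro ⟨h0, h1⟩
    refine ⟨h0, fun n _ => ?_⟩
    rw [← key, ← h1, E_Ser, PowerSeries.coeff_mk, PowerSeries.coeff_mk]

theorem nw_mul {s t c d : ℕ → ℚ} (hc : IsNw s c) (hd : IsNw t d) :
    IsNw (fun j => s j + t j) (fun n => ∑ x ∈ antidiagonal n, c x.1 * d x.2) := by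
  rw [nw_iff_Ser] at hc hd ⊢
  have h1 : (PowerSeries.mk fun n => ∑ x ∈ antidiagonal n, c x.1 * d x.2) =
      PowerSeries.mk c * PowerSeries.mk d := by
    ext n
    rw [PowerSeries.coeff_mul, PowerSeries.coeff_mk]
    simp only [PowerSeries.coeff_mk]
  have h2 : S_Ser (fun j => s j + t j) = S_Ser s + S_Ser t := by
    ext n
    simp only [S_Ser, map_add, PowerSeries.coeff_mk]
    split_ifs <;> simp
  refine ⟨by simp [hc.1, hd.1], ?_⟩
  rw [h1, h2, E_mul_Ser, hc.2, hd.2]
  ring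

theorem nw_pow (q : ℚ) : IsNw (fun j => q ^ j) (fun n => q ^ n) := by
  refine ⟨by simp, fun n _ => ?_⟩
  have h1 : ∀ j ∈ Finset.Icc 1 n, q ^ j * q ^ (n - j) = q ^ n := by
    intro j hj
    rw [Finset.mem_Icc] at hj
    rw [← pow_add]
    congr 1
    omega
  rw [Finset.sum_congr rfl h1, Finset.sum_const, Nat.card_Icc, nsmul_eq_mul]
  simp

theorem nw_one : IsNw (fun j => -(-1) ^ j) (fun n => if n ≤ 1 then 1 else 0) := by
  refine ⟨by simp, fun n hn => ?_⟩
  rw [sum_Icc_Ser]
  obtain ⟨m, rfl⟩ : ∃ m, n = m + 1 := ⟨n - 1, by omega⟩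
  rcases Nat.eq_zero_or_pos m with rfl | hm
  · simp
  · obtain ⟨l, rfl⟩ : ∃ l, m = l + 1 := ⟨m - 1, by omega⟩
    rw [Finset.sum_range_succ, Finset.sum_range_succ, Finset.sum_eq_zero]
    · have h1 : l + 1 + 1 - (l + 1 + 1) = 0 := by omega
      have h2 : l + 1 + 1 - (l + 1) = 1 := by omega
      simp only [h1, h2]
      simp
      ring
    · intro j hj
      rw [Finset.mem_range] at hj
      rw [if_neg (by omega), mul_zero]

theorem nw_sign {s c : ℕ → ℚ} (h : IsNw s c) :
    IsNw (fun j => (-1) ^ j * s j) (fun n => (-1) ^ n * c n) := by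
  refine ⟨by simp [h.zero], fun n hn => ?_⟩
  have h1 : (n : ℚ) * ((-1) ^ n * c n) = (-1) ^ n * ((n : ℚ) * c n) := by ring
  show (n : ℚ) * ((-1) ^ n * c n) = _
  rw [h1, h.step n hn, Finset.mul_sum]
  refine Finset.sum_congr rfl fun j hj => ?_
  rw [Finset.mem_Icc] at hj
  have h2 : (-1 : ℚ) ^ n = (-1) ^ j * (-1) ^ (n - j) := by
    rw [← pow_add]
    congr 1
    omega
  rw [h2]
  ring

theorem nw_congr {s t c : ℕ → ℚ} (h : IsNw s c) (hst : ∀ j, 0 < j → t j = s j) : IsNw t c := by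
  refine ⟨h.zero, fun n hn => ?_⟩
  rw [h.step n hn]
  refine Finset.sum_congr rfl fun j hj => ?_
  rw [Finset.mem_Icc] at hj
  rw [hst j (by omega)]

private theorem rec_Ser (q : ℚ) (a R : ℕ → ℚ)
    (hR : ∀ n, a n = ∑ i ∈ range (n / 2 + 1), q ^ i * R (n - 2 * i)) :
    PowerSeries.mk a * (1 - PowerSeries.C q * PowerSeries.X ^ 2) = PowerSeries.mk R := by
  have h0 : a 0 = R 0 := by rw [hR 0]; simp
  have h1 : a 1 = R 1 := by rw [hR 1]; simp
  have h2 : ∀ n, a (n + 2) = R (n + 2) + q * a n := by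
    intro n
    rw [hR (n + 2), hR n, show (n + 2) / 2 + 1 = (n / 2 + 1) + 1 by omega,
      Finset.sum_range_succ', Finset.mul_sum]
    simp only [pow_zero, one_mul, mul_zero, Nat.sub_zero]
    rw [add_comm]
    congr 1
    refine Finset.sum_congr rfl fun i _ => ?_
    rw [show n + 2 - 2 * (i + 1) = n - 2 * i by omega]
    ring
  ext n
  rw [mul_sub, mul_one, map_sub, ← mul_assoc, mul_comm (PowerSeries.mk a) (PowerSeries.C q),
    mul_assoc, PowerSeries.coeff_C_mul, PowerSeries.coeff_mul_X_pow', PowerSeries.coeff_mk,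
    PowerSeries.coeff_mk]
  match n with
  | 0 => simp [h0]
  | 1 => simp [h1]
  | n + 2 => simp [h2 n]

private theorem geo_Ser (q : ℚ) :
    (1 - PowerSeries.C q * PowerSeries.X) * PowerSeries.mk (fun n => q ^ n) = 1 := by
  ext n
  rw [sub_mul, one_mul, map_sub, mul_assoc, PowerSeries.coeff_C_mul]
  match n with
  | 0 => simp
  | n + 1 =>
    rw [PowerSeries.coeff_succ_X_mul, PowerSeries.coeff_mk, PowerSeries.coeff_mk,
      PowerSeries.coeff_one, if_neg (by omega)]
    ring

private theorem cc_Ser (q : ℚ) :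
    PowerSeries.mk (Cc q) * ((1 - PowerSeries.X) * (1 - PowerSeries.C q * PowerSeries.X)) =
      1 - PowerSeries.C q * PowerSeries.X ^ 2 := by
  have h1 : PowerSeries.mk (Cc q) =
      PowerSeries.mk (fun n => (1 : ℚ) ^ n) + PowerSeries.mk (fun n => q ^ n) - 1 := by
    ext n
    rw [map_sub, map_add, PowerSeries.coeff_mk, PowerSeries.coeff_mk, PowerSeries.coeff_mk,
      PowerSeries.coeff_one, Cc]
    split_ifs with h
    · rw [h]
      norm_num
    · rw [one_pow, sub_zero]
  have h2 := geo_Ser 1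
  have h3 := geo_Ser q
  rw [map_one, one_mul] at h2
  rw [h1]
  calc (PowerSeries.mk (fun n => (1 : ℚ) ^ n) + PowerSeries.mk (fun n => q ^ n) - 1) *
        ((1 - PowerSeries.X) * (1 - PowerSeries.C q * PowerSeries.X))
      = ((1 - PowerSeries.X) * PowerSeries.mk (fun n => (1 : ℚ) ^ n)) *
          (1 - PowerSeries.C q * PowerSeries.X) +
        ((1 - PowerSeries.C q * PowerSeries.X) * PowerSeries.mk (fun n => q ^ n)) *
          (1 - PowerSeries.X) -
        (1 - PowerSeries.X) * (1 - PowerSeries.C q * PowerSeries.X) := by ring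
    _ = _ := by
      rw [h2, h3]
      ring

theorem h_sum (q : ℚ) {s a P R : ℕ → ℚ} (ha : IsNw (fun j => s j + q ^ j - (-1) ^ j) a)
    (hP : IsNw s P) (hR : ∀ n, a n = ∑ i ∈ range (n / 2 + 1), q ^ i * R (n - 2 * i)) (g : ℕ) :
    ∑ i ∈ range (g / 2 + 1), R (g - 2 * i) = ∑ i ∈ range (g + 1), P i * Cc q (g - i) := by
  -- the series of `a`
  have hone : (PowerSeries.mk fun n : ℕ => if n ≤ 1 then (1 : ℚ) else 0) =
      1 + PowerSeries.X := by
    ext n
    rw [PowerSeries.coeff_mk, map_add, PowerSeries.coeff_one, PowerSeries.coeff_X]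
    match n with
    | 0 => simp
    | 1 => simp
    | n + 2 => simp
  have hA : PowerSeries.mk a = PowerSeries.mk P * PowerSeries.mk (fun n => q ^ n) *
      (1 + PowerSeries.X) := by
    have h1 := nw_mul (nw_mul hP (nw_pow q)) nw_one
    have h2 : a = _ := nw_uniq ha (nw_congr h1 fun j _ => by ring)
    rw [← hone]
    ext n
    rw [PowerSeries.coeff_mk, PowerSeries.coeff_mul, h2]
    refine Finset.sum_congr rfl fun x _ => ?_
    rw [PowerSeries.coeff_mul, PowerSeries.coeff_mk]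
    simp only [PowerSeries.coeff_mk]
  have hAR := rec_Ser q a R hR
  have hHR : (PowerSeries.mk fun n => ∑ i ∈ range (n / 2 + 1), R (n - 2 * i)) *
      (1 - PowerSeries.C 1 * PowerSeries.X ^ 2) = PowerSeries.mk R :=
    rec_Ser 1 _ R fun n => by simp
  have hC := cc_Ser q
  have hg := geo_Ser q
  rw [map_one, one_mul] at hHR
  set A := PowerSeries.mk a with hAdef
  set H := PowerSeries.mk fun n => ∑ i ∈ range (n / 2 + 1), R (n - 2 * i) with hHdef
  have hne : (1 + PowerSeries.X) * ((1 - PowerSeries.X) *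
      (1 - PowerSeries.C q * PowerSeries.X)) ≠ (0 : PowerSeries ℚ) := by
    intro h0
    have h1 := congrArg PowerSeries.constantCoeff h0
    simp at h1
  have hmain : H = PowerSeries.mk P * PowerSeries.mk (Cc q) := by
    refine mul_left_cancel₀ hne ?_
    calc (1 + PowerSeries.X) * ((1 - PowerSeries.X) * (1 - PowerSeries.C q * PowerSeries.X)) * H
        = (H * (1 - PowerSeries.X ^ 2)) * (1 - PowerSeries.C q * PowerSeries.X) := by ring
      _ = PowerSeries.mk R * (1 - PowerSeries.C q * PowerSeries.X) := by rw [hHR]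
      _ = (A * (1 - PowerSeries.C q * PowerSeries.X ^ 2)) *
          (1 - PowerSeries.C q * PowerSeries.X) := by rw [hAR]
      _ = (1 + PowerSeries.X) * ((1 - PowerSeries.C q * PowerSeries.X) *
          PowerSeries.mk (fun n => q ^ n)) * PowerSeries.mk P *
          (1 - PowerSeries.C q * PowerSeries.X ^ 2) := by rw [hA]; ring
      _ = (1 + PowerSeries.X) * PowerSeries.mk P *
          (PowerSeries.mk (Cc q) * ((1 - PowerSeries.X) *
            (1 - PowerSeries.C q * PowerSeries.X))) := by rw [hg, hC]; ring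
      _ = _ := by ring
  have h3 := congrArg (PowerSeries.coeff g) hmain
  rw [hHdef, PowerSeries.coeff_mk, PowerSeries.coeff_mul,
    Finset.Nat.sum_antidiagonal_eq_sum_range_succ
      (fun a b => PowerSeries.coeff a (PowerSeries.mk P) *
        PowerSeries.coeff b (PowerSeries.mk (Cc q)))] at h3
  simpa only [PowerSeries.coeff_mk] using h3

end Pool.Agent.HyZ
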