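import Pool.Agent.HyZ.Fact
import Pool.Agent.HyZ.Pts
import Pool.Agent.HyZ.Ser
import Pool.Agent.HyZ.Sj

/-!
# Package HyZ-Main: the number of the reduced pairs

* `can_count`: the numbers `an f n` satisfy the recursion with `Psi f j = s_j + p^j - (-1)^j`.
* `diff_eq`: `can_count` for the two models.
-/

set_option autoImplicit false

noncomputable section

namespace Pool.Agent.HyZ

open Polynomial Pool.Agent.HyE
open scoped Classical

variable {p : ℕ} [Fact p.Prime]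

private lemma two_ne (hp : p ≠ 2) : (2 : ZMod p) ≠ 0 := by
  intro h
  have h1 : ((2 : ℕ) : ZMod p) = 0 := by exact_mod_cast h
  rw [ZMod.natCast_eq_zero_iff] at h1
  exact hp ((Nat.prime_dvd_prime_iff_eq Fact.out Nat.prime_two).1 h1)

private lemma psi_eq (hp : p ≠ 2) {g : ℕ} {f : (ZMod p)[X]} (hf : Inert f)
    (hg : f.natDegree = 2 * g + 2) {j : ℕ} (hj : 0 < j) :
    (Psi f j : ℤ) = sj p g f j + (p : ℤ) ^ j - (-1) ^ j := by
  have hj0 : j ≠ 0 := hj.ne'
  have h1 := psi_pts hf (GaloisField p j)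
  rw [GaloisField.finrank p hj0] at h1
  have h2 : (2 : GaloisField p j) ≠ 0 := by
    intro h
    apply two_ne hp
    apply (algebraMap (ZMod p) (GaloisField p j)).injective
    rw [map_ofNat, map_zero, h]
  have h3 := pts_sum h2 (f.map (algebraMap (ZMod p) (GaloisField p j)))
  have h4 : Nat.card (GaloisField p j) = p ^ j := GaloisField.card p j hj0
  have h5 : ¬ IsSquare (f.coeff (2 * g + 2)) := by
    rw [← hg]
    exact hf.lead
  have h6 := qc_ext hp h5 hj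
  rw [h1, h3, h4, sj, h6]
  push_cast
  ring

theorem can_count (hp : p ≠ 2) {g : ℕ} {f : (ZMod p)[X]} (hf : Inert f)
    (hg : f.natDegree = 2 * g + 2) {P : ℕ → ℚ} (hP : IsNw (fun j => (sj p g f j : ℚ)) P) :
    (Nat.card (CanS f) : ℚ) = ∑ i ∈ Finset.range (g + 1), P i * Cc p (g - i) := by
  have ha : IsNw (fun j => (sj p g f j : ℚ) + (p : ℚ) ^ j - (-1) ^ j)
      (fun n => (an f n : ℚ)) := by
    constructor
    · show ((an f 0 : ℕ) : ℚ) = 1
      rw [an_zero hf]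
      norm_num
    · intro n hn
      show (n : ℚ) * (an f n : ℚ) = ∑ j ∈ Finset.Icc 1 n,
        ((sj p g f j : ℚ) + (p : ℚ) ^ j - (-1) ^ j) * (an f (n - j) : ℚ)
      have h1 := an_rec hf n hn
      have h2 : ((n * an f n : ℕ) : ℚ) =
          ((∑ j ∈ Finset.Icc 1 n, Psi f j * an f (n - j) : ℕ) : ℚ) := by rw [h1]
      push_cast at h2
      rw [h2]
      refine Finset.sum_congr rfl fun j hj => ?_
      have h3 := psi_eq hp hf hg (Finset.mem_Icc.1 hj).1
      have h4 : ((Psi f j : ℤ) : ℚ) = ((sj p g f j + (p : ℤ) ^ j - (-1) ^ j : ℤ) : ℚ) := by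
        rw [h3]
      push_cast at h4
      rw [h4]
  have hR : ∀ n, (an f n : ℚ) =
      ∑ i ∈ Finset.range (n / 2 + 1), (p : ℚ) ^ i * (Rn f (n - 2 * i) : ℚ) := by
    intro n
    rw [an_eq hf n, Nat.card_zmod]
    push_cast
    rfl
  have h1 := h_sum (p : ℚ) (R := fun n => (Rn f n : ℚ)) ha hP hR g
  have h2 : gn f = g := by
    rw [gn, hg]
    omega
  rw [card_canS, h2, ← h1]
  push_cast
  rfl

theorem diff_eq (hp : p ≠ 2) {g : ℕ} {F : (ZMod p)[X]} (hF : F.natDegree ≤ 2 * g + 2)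
    (hF' : 2 * g + 1 ≤ F.natDegree) (hs : Squarefree F) {x₀ x₁ : ZMod p}
    (h₀ : ¬ IsSquare (F.eval x₀)) (h₁ : IsSquare (F.eval x₁)) (h₁' : F.eval x₁ ≠ 0)
    {P : ℕ → ℚ} (hP : IsNw (fun j => (sj p g F j : ℚ)) P) :
    (Nat.card (CanS (mb g F x₀)) : ℚ) - Nat.card (CanS (C (F.eval x₀) * mb g F x₁)) =
      2 * ∑ i ∈ Finset.range (g + 1), if i % 2 = 1 then P i * Cc p (g - i) else 0 := by
  obtain ⟨hi, hd⟩ := inert_mb (g := g) (x₀ := x₀) (two_ne hp) hF hF' hs h₀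
  obtain ⟨hi', hd'⟩ := inert_tw (g := g) (x₀ := x₀) (x₁ := x₁) (two_ne hp) hF hF' hs h₀ h₁ h₁'
  have hP1 : IsNw (fun j => (sj p g (mb g F x₀) j : ℚ)) P := by
    refine nw_congr hP fun j hj => ?_
    rw [sj_mb hF x₀ hj]
  have hP2 : IsNw (fun j => (sj p g (C (F.eval x₀) * mb g F x₁) j : ℚ))
      (fun n => (-1) ^ n * P n) := by
    refine nw_congr (nw_sign hP) fun j hj => ?_
    show (sj p g (C (F.eval x₀) * mb g F x₁) j : ℚ) = (-1) ^ j * (sj p g F j : ℚ)
    rw [sj_tw hp hF h₀ x₁ hj]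
    push_cast
    rfl
  rw [can_count hp hi hd hP1, can_count hp hi' hd' hP2, ← Finset.sum_sub_distrib,
    Finset.mul_sum]
  refine Finset.sum_congr rfl fun i _ => ?_
  rcases Nat.even_or_odd i with h | h
  · rw [h.neg_one_pow, if_neg (by rw [Nat.even_iff.1 h]; norm_num)]
    ring
  · rw [h.neg_one_pow, if_pos (Nat.odd_iff.1 h)]
    ring

end Pool.Agent.HyZ
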